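import Mathlib
import Pool.Agent.H395.Cyc.Stm
import Pool.Agent.H298.Core.WeilDefs

/-!
# Families of Weil numbers in fields which are unlinked, or disjoint over an imaginary quadratic
field, or of small degree: definitions
-/

set_option autoImplicit false

namespace Pool.Agent.H298.Exo

open NumberField Module Pool.Agent.H395.Cyc Pool.Agent.H298.Core

section one

variable {p a : ℕ}

/-- The relations between the conjugates of one Weil number `π`: families of integers `n` such that
the product of the powers `(φ π) ^ (n φ)` over all embeddings `φ` is a power of `p ^ a`. -/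
def IsRelationOf (w : WeilNum p a) (n : Emb w.E → ℤ) : Prop :=
  ∃ r : ℤ, ∏ φ, (φ.ev w.num) ^ n φ = ((p ^ a : ℕ) : ℂ) ^ r

/-- All relations between the conjugates of `π` are trivial: the exponents are equal at complex
conjugate embeddings. -/
def IsFree (w : WeilNum p a) : Prop :=
  ∀ n, IsRelationOf w n → ∀ φ, n φ = n φ.cj

/-- The relations between the conjugates of `π` come from the imaginary quadratic subfield `k`: the
difference of the exponents at `φ` and at the complex conjugate embedding does not depend on the
embedding `φ` over `k`. -/
def ComesFrom (Q : ImagQuad) (w : WeilNum p a) (θ : FHom Q.k w.E) : Prop :=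
  ∀ n, IsRelationOf w n → ∀ φ ψ, Q.Over θ φ → Q.Over θ ψ → n φ - n φ.cj = n ψ - n ψ.cj

end one

section family

variable {p a : ℕ} {I B : Type}

open Classical in
/-- The Weil numbers in the set `s` belong to abelian varieties of small dimension: all these
dimensions are at most three, or their sum is at most five and they are not an elliptic curve and an
abelian fourfold; and if two of the fields have the same Galois closure in the complex numbers then
they are Galois over `ℚ`. (The dimension is half of the degree of the CM field.) For instance this is
the case for one Weil number in a field of degree at most ten, and for Weil numbers in fields which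
have degree at most six and different Galois closures. -/
def IsSmall [Fintype I] (W : I → WeilNum p a) (s : Set I) : Prop :=
  ((∀ i ∈ s, finrank ℚ (W i).E ≤ 6) ∨ (∑ i with i ∈ s, finrank ℚ (W i).E ≤ 10 ∧
    ∀ i ∈ s, ∀ j ∈ s, finrank ℚ (W i).E = 2 → finrank ℚ (W j).E ≠ 8)) ∧
  ∀ i ∈ s, ∀ j ∈ s, i ≠ j → IntermediateField.normalClosure ℚ (W i).E ℂ =
    IntermediateField.normalClosure ℚ (W j).E ℂ → IsGalois ℚ (W i).E

/-- **The relations split**: some of the Weil numbers are in blocks (`β i = some b`), the Weil
numbers in `J` belong to fields which contain the imaginary quadratic field `k`, and the others are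
free. For each relation `n` (1) the difference of the exponents at `φ` and at the complex conjugate
embedding does not depend on `φ` over `k` for the fields in `J`; (2) it is zero for the free ones;
(3) for each block a positive multiple of this difference belongs to a relation in the block. -/
def RelationsSplit [Fintype I] (Q : ImagQuad) (J : Set I) (β : I → Option B)
    (W : I → WeilNum p a) (θ : Embedded Q J W) : Prop :=
  ∀ n, IsRelation W n →
    (∀ i (hi : i ∈ J) (φ ψ), Q.Over (θ i hi) φ → Q.Over (θ i hi) ψ →
      oddPart n i φ = oddPart n i ψ) ∧
    (∀ i, i ∉ J → β i = none → ∀ φ, oddPart n i φ = 0) ∧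
    ∀ b, ∃ (N : ℕ) (m : _ → ℤ), 0 < N ∧ IsRelation W m ∧ (∀ x, β x.1 ≠ some b → m x = 0) ∧
      ∀ i, β i = some b → ∀ φ, oddPart m i φ = N * oddPart n i φ

end family

section separated

variable {E E' : Type} [Field E] [Field E']

/-- The fields `E` and `E'` are unlinked: for all embeddings `φ` of `E` and `ψ` of `E'` there is an
automorphism of the complex numbers which fixes `φ` and maps `ψ` to its complex conjugate. -/
def AreUnlinked (E E' : Type) [Field E] [Field E'] : Prop :=
  ∀ (φ : Emb E) (ψ : Emb E'), ∃ σ, φ.mv σ = φ ∧ ψ.mv σ = ψ.cj

/-- The fields `E` and `E'` are disjoint over the imaginary quadratic field `k`: the automorphisms of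
the complex numbers which fix an embedding of `E` over `k` are transitive on the embeddings of `E'`
over `k`. -/
def AreDisjoint (Q : ImagQuad) (θ : FHom Q.k E) (θ' : FHom Q.k E') : Prop :=
  ∀ φ ψ ψ', Q.Over θ φ → Q.Over θ' ψ → Q.Over θ' ψ' → ∃ σ, φ.mv σ = φ ∧ ψ.mv σ = ψ'

/-- The fields of the Weil numbers in `J`, which contain the imaginary quadratic field `k`, are
pairwise disjoint over `k`, and two different fields are unlinked if they are not both in `J` and not
in one block. (`β i = some b` means that the `i`-th Weil number is in the block `b`.) -/
structure Separated {p a : ℕ} {I B : Type} (Q : ImagQuad) (J : Set I) (β : I → Option B)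
    (W : I → WeilNum p a) (θ : Embedded Q J W) : Prop where
  unlinked : ∀ i j, i ≠ j → (i ∉ J ∨ j ∉ J) → (β i = none ∨ β i ≠ β j) →
    AreUnlinked (W i).E (W j).E
  disjoint : ∀ i j (hi : i ∈ J) (hj : j ∈ J), i ≠ j → AreDisjoint Q (θ i hi) (θ j hj)

/-- The compositum of the images of two embeddings has the degree `d`. -/
def HasCompositum (φ : E →+* ℂ) (ψ : E' →+* ℂ) [CharZero E] [CharZero E'] (d : ℕ) : Prop :=
  finrank ℚ ↥(φ.toRatAlgHom.fieldRange ⊔ ψ.toRatAlgHom.fieldRange) = d

/-- Two number fields are unlinked if a compositum has the maximal degree, or if one of them is a CM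
field whose discriminant is divisible by a prime number which does not divide the discriminant of its
maximal real subfield and the discriminant of the other field. Two fields over `k` are disjoint over
`k` if a compositum over `k` has the maximal degree. -/
def SeparationCriteria : Prop :=
  ∀ (E E' : Type) [Field E] [NumberField E] [IsCMField E] [Field E'] [NumberField E']
    [IsCMField E'],
    ((∃ (φ : E →+* ℂ) (ψ : E' →+* ℂ), HasCompositum φ ψ (finrank ℚ E * finrank ℚ E')) →
      AreUnlinked E E') ∧
    ((∃ q : ℕ, Separates q E E' ∨ Separates q E' E) → AreUnlinked E E') ∧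
    ∀ (Q : ImagQuad) (θ : FHom Q.k E) (θ' : FHom Q.k E'),
      (∃ (φ : E →+* ℂ) (ψ : E' →+* ℂ) (d : ℕ), Q.Over θ φ ∧ Q.Over θ' ψ ∧ HasCompositum φ ψ d ∧
        2 * d = finrank ℚ E * finrank ℚ E') → AreDisjoint Q θ θ'

end separated

/-- **Criteria for one Weil number** `π` all positive powers of which generate its CM field `K`. All
relations are trivial if `K` has a small core (`IsCoreWeil`); if `[K : ℚ] = 2 r` with a prime number
`r` this is the case if and only if no norm of `π` to an imaginary quadratic field is supersingular.
The relations come from an imaginary quadratic subfield `k` if the functions with sum zero on the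
embeddings over `k` are irreducible (for instance if `[K : k]` is a prime number, or if the
automorphisms over `k` act doubly transitively on the embeddings over `k`, or if `[K : ℚ] ≥ 6` and the
automorphisms act triply transitively on the embeddings of the maximal real subfield), or if one of
the slopes over `k` dominates the others. -/
def SingleCriteria (p a : ℕ) [Fact p.Prime] : Prop :=
  ∀ w : WeilNum p a, Generates w.num →
    (IsCoreWeil p a w.num → IsFree w) ∧
    (∀ r : ℕ, r.Prime → finrank ℚ w.E = 2 * r →
      (IsFree w ↔ ∀ F : IntermediateField ℚ w.E, finrank ℚ F = 2 → ¬ IsTotallyReal F →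
        ¬ SupersingularNorm p a w.num F)) ∧
    ∀ (Q : ImagQuad) (θ : FHom Q.k w.E),
      (SumZeroIrreducible Q θ ∨ DominatedOver p w.num Q θ ∨
        (6 ≤ finrank ℚ w.E ∧ Pool.Agent.H395.Cyc.TriplyTransitive w.E)) → ComesFrom Q w θ

end Pool.Agent.H298.Exo
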