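import Mathlib
import Pool.Agent.H298.Exo.Stm

/-!
# Fields which are doubly transitive or of prime degree over an imaginary quadratic field
-/

set_option autoImplicit false

namespace Pool.Agent.H298.Exo

open NumberField Module Pool.Agent.H395.Cyc

/-- `[E : k]` is a prime number, or the automorphisms over the imaginary quadratic field `k` act
doubly transitively on the embeddings of `E` over `k` (for instance `E = k`). -/
def PrimeOrDouble {E : Type} [Field E] [NumberField E] (Q : ImagQuad) (θ : FHom Q.k E) : Prop :=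
  (∃ r : ℕ, r.Prime ∧ finrank ℚ E = 2 * r) ∨
    ∀ φ₁ φ₂ ψ₁ ψ₂, Q.Over θ φ₁ → Q.Over θ φ₂ → Q.Over θ ψ₁ → Q.Over θ ψ₂ → φ₁ ≠ φ₂ → ψ₁ ≠ ψ₂ →
      ∃ σ, Q.Fixes σ ∧ φ₁.mv σ = ψ₁ ∧ φ₂.mv σ = ψ₂

end Pool.Agent.H298.Exo
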