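import Mathlib
import Pool.Graph.R_seed8.Y137.MV.Defs
import Pool.Agent.H395.Exo.Defs

/-!
# Unlinked fields, and fields which are disjoint over an imaginary quadratic field
-/

set_option autoImplicit false

namespace Pool.Agent.H298.Exo

open NumberField

/-- For all embeddings `φ` of `E` and `ψ` of `E'` there is an automorphism of the complex numbers
which fixes `φ` and maps `ψ` to its complex conjugate. -/
def Unlinked (E E' : Type) [Field E] [Field E'] : Prop :=
  ∀ (φ : E →+* ℂ) (ψ : E' →+* ℂ), ∃ σ : ℂ ≃+* ℂ, (σ : ℂ →+* ℂ).comp φ = φ ∧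
    (σ : ℂ →+* ℂ).comp ψ = ComplexEmbedding.conjugate ψ

/-- The stabilizer of an embedding of `E` over `k` acts transitively on the embeddings of `E'` over
`k`. -/
def DisjointOver {k E E' : Type} [Field k] [Field E] [Field E'] (κ : k →+* ℂ) (θ : k →+* E)
    (θ' : k →+* E') : Prop :=
  ∀ (φ : E →+* ℂ) (ψ ψ' : E' →+* ℂ), φ.comp θ = κ → ψ.comp θ' = κ → ψ'.comp θ' = κ →
    ∃ σ : ℂ ≃+* ℂ, (σ : ℂ →+* ℂ).comp φ = φ ∧ (σ : ℂ →+* ℂ).comp ψ = ψ'

end Pool.Agent.H298.Exo
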