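import Mathlib
import Pool.Agent.H298.Exo.Defs
import Pool.Graph.R_seed8.Y1.CT.UnrelRel

/-!
# Relations between the conjugates of Weil numbers: translates and averages
-/

set_option autoImplicit false
set_option linter.unusedSectionVars false
set_option linter.unusedVariables false

namespace Pool.Agent.H298.Exo

open NumberField Module

noncomputable section

variable {I : Type} [Fintype I] {K : I → Type} [∀ i, Field (K i)] [∀ i, NumberField (K i)]

/-- The embeddings of all the fields. -/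
abbrev Pts (K : I → Type) [∀ i, Field (K i)] : Type := Σ i, (K i →+* ℂ)

/-- The action of an automorphism of the complex numbers on the embeddings. -/
def act (K : I → Type) [∀ i, Field (K i)] (σ : ℂ ≃+* ℂ) : Equiv.Perm (Pts K) where
  toFun x := ⟨x.1, (σ : ℂ →+* ℂ).comp x.2⟩
  invFun x := ⟨x.1, (σ.symm : ℂ →+* ℂ).comp x.2⟩
  left_inv := by
    rintro ⟨i, φ⟩
    have h : (σ.symm : ℂ →+* ℂ).comp ((σ : ℂ →+* ℂ).comp φ) = φ := by
      ext x
      exact σ.symm_apply_apply _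
    change (⟨i, (σ.symm : ℂ →+* ℂ).comp ((σ : ℂ →+* ℂ).comp φ)⟩ : Pts K) = ⟨i, φ⟩
    rw [h]
  right_inv := by
    rintro ⟨i, φ⟩
    have h : (σ : ℂ →+* ℂ).comp ((σ.symm : ℂ →+* ℂ).comp φ) = φ := by
      ext x
      exact σ.apply_symm_apply _
    change (⟨i, (σ : ℂ →+* ℂ).comp ((σ.symm : ℂ →+* ℂ).comp φ)⟩ : Pts K) = ⟨i, φ⟩
    rw [h]

theorem act_mk (σ : ℂ ≃+* ℂ) (i : I) (φ : K i →+* ℂ) :
    act K σ ⟨i, φ⟩ = ⟨i, (σ : ℂ →+* ℂ).comp φ⟩ := rfl

theorem act_mul (σ τ : ℂ ≃+* ℂ) : act K (σ * τ) = act K σ * act K τ := rfl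

theorem act_one : act K (1 : ℂ ≃+* ℂ) = 1 := rfl

/-- The complex conjugation. -/
def bar (x : Pts K) : Pts K := ⟨x.1, ComplexEmbedding.conjugate x.2⟩

theorem bar_bar (x : Pts K) : bar (bar x) = x := by
  obtain ⟨i, φ⟩ := x
  have h : ComplexEmbedding.conjugate (ComplexEmbedding.conjugate φ) = φ :=
    ComplexEmbedding.involutive_conjugate (K i) φ
  change (⟨i, ComplexEmbedding.conjugate (ComplexEmbedding.conjugate φ)⟩ : Pts K) = ⟨i, φ⟩
  rw [h]

/-- The odd part of a family of exponents. -/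
def dd (n : Pts K → ℤ) (x : Pts K) : ℤ := n x - n (bar x)

theorem dd_bar (n : Pts K → ℤ) (x : Pts K) : dd n (bar x) = - dd n x := by
  unfold dd
  rw [bar_bar]
  ring

/-- The relations. -/
def IsRel (q : ℕ) (π : ∀ i, K i) (n : Pts K → ℤ) : Prop :=
  ∃ r : ℤ, ∏ x, (x.2 (π x.1)) ^ n x = (q : ℂ) ^ r

variable {q : ℕ} {π : ∀ i, K i}

theorem IsRel.zero : IsRel q π (fun _ => 0) := ⟨0, by simp⟩

theorem IsRel.add (hq : (q : ℂ) ≠ 0) (hne : ∀ x : Pts K, x.2 (π x.1) ≠ 0) {n m : Pts K → ℤ}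
    (hn : IsRel q π n) (hm : IsRel q π m) : IsRel q π (fun x => n x + m x) := by
  obtain ⟨r, hr⟩ := hn
  obtain ⟨s, hs⟩ := hm
  refine ⟨r + s, ?_⟩
  rw [zpow_add₀ hq, ← hr, ← hs, ← Finset.prod_mul_distrib]
  exact Finset.prod_congr rfl fun x _ => zpow_add₀ (hne x) _ _

theorem IsRel.mul (c : ℤ) {n : Pts K → ℤ}
    (hn : IsRel q π n) : IsRel q π (fun x => c * n x) := by
  obtain ⟨r, hr⟩ := hn
  refine ⟨r * c, ?_⟩
  rw [zpow_mul, ← hr, ← Finset.prod_zpow]
  refine Finset.prod_congr rfl fun x _ => ?_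
  change _ ^ (c * n x) = _
  rw [mul_comm, zpow_mul]

theorem IsRel.sub (hq : (q : ℂ) ≠ 0) (hne : ∀ x : Pts K, x.2 (π x.1) ≠ 0) {n m : Pts K → ℤ}
    (hn : IsRel q π n) (hm : IsRel q π m) : IsRel q π (fun x => n x - m x) := by
  have h := hn.add hq hne (hm.mul (-1))
  convert h using 2
  ring

theorem IsRel.act (σ : ℂ ≃+* ℂ) {n : Pts K → ℤ} (hn : IsRel q π n) :
    IsRel q π (fun x => n (act K σ x)) := by
  obtain ⟨r, hr⟩ := hn
  refine ⟨r, ?_⟩
  have h1 : ∏ x : Pts K, (x.2 (π x.1)) ^ n (Exo.act K σ x) =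
      ∏ x : Pts K, (σ.symm ((Exo.act K σ x).2 (π x.1))) ^ n (Exo.act K σ x) := by
    refine Finset.prod_congr rfl fun x _ => ?_
    congr 1
    exact (σ.symm_apply_apply _).symm
  have h2 : ∏ x : Pts K, (σ.symm ((Exo.act K σ x).2 (π x.1))) ^ n (Exo.act K σ x) =
      ∏ y : Pts K, (σ.symm (y.2 (π y.1))) ^ n y :=
    Fintype.prod_equiv (Exo.act K σ) _ _ fun x => rfl
  have h3 : ∏ y : Pts K, (σ.symm (y.2 (π y.1))) ^ n y =
      σ.symm (∏ y : Pts K, (y.2 (π y.1)) ^ n y) := by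
    rw [map_prod]
    exact Finset.prod_congr rfl fun y _ => by rw [map_zpow₀]
  rw [h1, h2, h3, hr, map_zpow₀, map_natCast]

theorem IsRel.sum (hq : (q : ℂ) ≠ 0) (hne : ∀ x : Pts K, x.2 (π x.1) ≠ 0) {ι : Type}
    (s : Finset ι) (n : ι → Pts K → ℤ) (hn : ∀ t ∈ s, IsRel q π (n t)) :
    IsRel q π (fun x => ∑ t ∈ s, n t x) := by
  classical
  induction s using Finset.induction_on with
  | empty => simpa using IsRel.zero
  | insert t s ht ih =>
    have h := (hn t (Finset.mem_insert_self t s)).add hq hne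
      (ih fun u hu => hn u (Finset.mem_insert_of_mem hu))
    simpa only [Finset.sum_insert ht] using h

section average

/-- The subgroup of the automorphisms which fix an embedding. -/
def stab (x₀ : Pts K) : Subgroup (ℂ ≃+* ℂ) where
  carrier := {σ | act K σ x₀ = x₀}
  mul_mem' := by
    intro σ τ hσ hτ
    change act K (σ * τ) x₀ = x₀
    rw [act_mul, Equiv.Perm.mul_apply, hτ, hσ]
  one_mem' := rfl
  inv_mem' := by
    intro σ hσ
    have h : act K σ⁻¹ (act K σ x₀) = x₀ := by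
      rw [← Equiv.Perm.mul_apply, ← act_mul, inv_mul_cancel, act_one, Equiv.Perm.one_apply]
    have hσ' : act K σ x₀ = x₀ := hσ
    rw [hσ'] at h
    exact h

/-- The action as a homomorphism. -/
def actHom (K : I → Type) [∀ i, Field (K i)] [∀ i, NumberField (K i)] :
    (ℂ ≃+* ℂ) →* Equiv.Perm (Pts K) where
  toFun := act K
  map_one' := act_one
  map_mul' := act_mul

/-- The group of permutations given by the automorphisms which fix an embedding. -/
def grp (x₀ : Pts K) : Subgroup (Equiv.Perm (Pts K)) := (stab x₀).map (actHom K)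

noncomputable instance (x₀ : Pts K) : Fintype (grp x₀) := Fintype.ofFinite _

/-- The sum of the translates. -/
def avg (x₀ : Pts K) (n : Pts K → ℤ) (x : Pts K) : ℤ := ∑ h : grp x₀, n ((h : Equiv.Perm _) x)

theorem IsRel.avg (hq : (q : ℂ) ≠ 0) (hne : ∀ x : Pts K, x.2 (π x.1) ≠ 0) (x₀ : Pts K)
    {n : Pts K → ℤ} (hn : IsRel q π n) : IsRel q π (Exo.avg x₀ n) := by
  refine IsRel.sum hq hne Finset.univ (fun (h : grp x₀) x => n ((h : Equiv.Perm _) x)) ?_
  rintro ⟨h, σ, hσ, rfl⟩ _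
  exact hn.act σ

theorem avg_act (x₀ : Pts K) (n : Pts K → ℤ) {σ : ℂ ≃+* ℂ} (hσ : act K σ x₀ = x₀) (x : Pts K) :
    avg x₀ n (act K σ x) = avg x₀ n x := by
  let g : grp x₀ := ⟨act K σ, σ, hσ, rfl⟩
  refine Fintype.sum_equiv (Equiv.mulRight g) _ _ fun h => ?_
  rfl

theorem avg_self (x₀ : Pts K) (n : Pts K → ℤ) : avg x₀ n x₀ = Fintype.card (grp x₀) * n x₀ := by
  have h : ∀ h : grp x₀, n ((h : Equiv.Perm _) x₀) = n x₀ := by
    rintro ⟨h, σ, hσ, rfl⟩
    have hσ' : act K σ x₀ = x₀ := hσ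
    change n (act K σ x₀) = n x₀
    rw [hσ']
  unfold avg
  rw [Finset.sum_congr rfl fun g _ => h g, Finset.sum_const, Finset.card_univ, nsmul_eq_mul]

variable [∀ i, IsCMField (K i)]

theorem comp_conj {E : Type} [Field E] [NumberField E] [IsCMField E] (σ : ℂ →+* ℂ)
    (φ : E →+* ℂ) : σ.comp (ComplexEmbedding.conjugate φ) =
      ComplexEmbedding.conjugate (σ.comp φ) := by
  ext x
  have h1 : ∀ ψ : E →+* ℂ, ComplexEmbedding.conjugate ψ x = ψ (IsCMField.complexConj E x) :=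
    fun ψ => (IsCMField.complexEmbedding_complexConj E ψ x).symm
  rw [h1]
  change σ (ComplexEmbedding.conjugate φ x) = _
  rw [h1]
  rfl

theorem act_bar (σ : ℂ ≃+* ℂ) (x : Pts K) : act K σ (bar x) = bar (act K σ x) := by
  obtain ⟨i, φ⟩ := x
  change (⟨i, (σ : ℂ →+* ℂ).comp (ComplexEmbedding.conjugate φ)⟩ : Pts K) = ⟨i, _⟩
  rw [comp_conj]
  rfl

end average

end

end Pool.Agent.H298.Exo
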