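import Mathlib
import Pool.Agent.H298.Exo.Rel
import Pool.Agent.H395.Exo.Imag
import Pool.Agent.H395.Exo.IrrCrit

/-!
# Fields whose compositum has the maximal degree
-/

set_option autoImplicit false
set_option linter.unusedSectionVars false
set_option linter.unusedVariables false

namespace Pool.Agent.H298.Exo

open NumberField Module
open Pool.Agent.H395.Exo (conj_ne_self emb_quad Over exists_aut card_over)

noncomputable section

variable {E E' : Type} [Field E] [NumberField E] [Field E'] [NumberField E']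

/-- The compositum of the images of two embeddings. -/
def comp (φ : E →+* ℂ) (ψ : E' →+* ℂ) : IntermediateField ℚ ℂ :=
  φ.toRatAlgHom.fieldRange ⊔ ψ.toRatAlgHom.fieldRange

instance (φ : E →+* ℂ) (ψ : E' →+* ℂ) : FiniteDimensional ℚ (comp φ ψ) := by
  have h1 : FiniteDimensional ℚ φ.toRatAlgHom.fieldRange :=
    Module.Finite.of_surjective φ.toRatAlgHom.rangeRestrict.toLinearMap
      φ.toRatAlgHom.rangeRestrict_surjective
  have h2 : FiniteDimensional ℚ ψ.toRatAlgHom.fieldRange :=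
    Module.Finite.of_surjective ψ.toRatAlgHom.rangeRestrict.toLinearMap
      ψ.toRatAlgHom.rangeRestrict_surjective
  exact IntermediateField.finiteDimensional_sup _ _

instance (φ : E →+* ℂ) (ψ : E' →+* ℂ) : NumberField (comp φ ψ) where
  to_charZero := inferInstance
  to_finiteDimensional := inferInstance

theorem mem_left (φ : E →+* ℂ) (ψ : E' →+* ℂ) (x : E) : φ x ∈ comp φ ψ :=
  (le_sup_left : φ.toRatAlgHom.fieldRange ≤ comp φ ψ) ⟨x, rfl⟩

theorem mem_right (φ : E →+* ℂ) (ψ : E' →+* ℂ) (x : E') : ψ x ∈ comp φ ψ :=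
  (le_sup_right : ψ.toRatAlgHom.fieldRange ≤ comp φ ψ) ⟨x, rfl⟩

/-- The embedding of the first field into the compositum. -/
def inL (φ : E →+* ℂ) (ψ : E' →+* ℂ) : E →+* comp φ ψ :=
  φ.codRestrict (comp φ ψ).toSubfield fun x => mem_left φ ψ x

/-- The embedding of the second field into the compositum. -/
def inR (φ : E →+* ℂ) (ψ : E' →+* ℂ) : E' →+* comp φ ψ :=
  ψ.codRestrict (comp φ ψ).toSubfield fun x => mem_right φ ψ x

/-- The restriction of an embedding of the compositum. -/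
def res (φ : E →+* ℂ) (ψ : E' →+* ℂ) (l : comp φ ψ →+* ℂ) : (E →+* ℂ) × (E' →+* ℂ) :=
  ⟨l.comp (inL φ ψ), l.comp (inR φ ψ)⟩

theorem res_injective (φ : E →+* ℂ) (ψ : E' →+* ℂ) : Function.Injective (res φ ψ) := by
  intro l l' h
  have h1 : l.comp (inL φ ψ) = l'.comp (inL φ ψ) := congrArg Prod.fst h
  have h2 : l.comp (inR φ ψ) = l'.comp (inR φ ψ) := congrArg Prod.snd h
  have hS : comp φ ψ = IntermediateField.adjoin ℚ
      ((φ.toRatAlgHom.fieldRange : Set ℂ) ∪ (ψ.toRatAlgHom.fieldRange : Set ℂ)) :=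
    IntermediateField.sup_def _ _
  have h3 : l.toRatAlgHom = l'.toRatAlgHom := by
    refine IntermediateField.algHom_ext_of_eq_adjoin ℚ hS fun x hx => ?_
    rcases hx with ⟨y, hy⟩ | ⟨y, hy⟩
    · have h4 := RingHom.congr_fun h1 y
      have h5 : inL φ ψ y = ⟨x, hS.ge (IntermediateField.subset_adjoin _ _ (Or.inl ⟨y, hy⟩))⟩ :=
        Subtype.ext hy
      change l (inL φ ψ y) = l' (inL φ ψ y) at h4
      rw [h5] at h4
      exact h4
    · have h4 := RingHom.congr_fun h2 y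
      have h5 : inR φ ψ y = ⟨x, hS.ge (IntermediateField.subset_adjoin _ _ (Or.inr ⟨y, hy⟩))⟩ :=
        Subtype.ext hy
      change l (inR φ ψ y) = l' (inR φ ψ y) at h4
      rw [h5] at h4
      exact h4
  ext x
  exact congrArg (fun f : comp φ ψ →ₐ[ℚ] ℂ => f x) h3

/-- Linearly disjoint fields are unlinked. -/
theorem unlinked_of_degree (φ₀ : E →+* ℂ) (ψ₀ : E' →+* ℂ)
    (h : finrank ℚ (comp φ₀ ψ₀) = finrank ℚ E * finrank ℚ E') : Unlinked E E' := by
  classical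
  have hb : Function.Bijective (res φ₀ ψ₀) := by
    rw [Fintype.bijective_iff_injective_and_card]
    refine ⟨res_injective φ₀ ψ₀, ?_⟩
    rw [Fintype.card_prod, NumberField.Embeddings.card, NumberField.Embeddings.card,
      NumberField.Embeddings.card, h]
  intro φ ψ
  obtain ⟨l, hl⟩ := hb.2 (φ, ψ)
  obtain ⟨l', hl'⟩ := hb.2 (φ, ComplexEmbedding.conjugate ψ)
  obtain ⟨σ, hσ⟩ := exists_aut l l'
  have h1 : l.comp (inL φ₀ ψ₀) = φ := congrArg Prod.fst hl
  have h2 : l.comp (inR φ₀ ψ₀) = ψ := congrArg Prod.snd hl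
  have h3 : l'.comp (inL φ₀ ψ₀) = φ := congrArg Prod.fst hl'
  have h4 : l'.comp (inR φ₀ ψ₀) = ComplexEmbedding.conjugate ψ := congrArg Prod.snd hl'
  refine ⟨σ, ?_, ?_⟩
  · calc (σ : ℂ →+* ℂ).comp φ = ((σ : ℂ →+* ℂ).comp l).comp (inL φ₀ ψ₀) := by rw [← h1]; rfl
      _ = φ := by rw [hσ, h3]
  · calc (σ : ℂ →+* ℂ).comp ψ = ((σ : ℂ →+* ℂ).comp l).comp (inR φ₀ ψ₀) := by rw [← h2]; rfl
      _ = ComplexEmbedding.conjugate ψ := by rw [hσ, h4]

variable {k : Type} [Field k] [NumberField k] [IsCMField k] (hk : finrank ℚ k = 2) {κ : k →+* ℂ}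
  {θ : k →+* E} {θ' : k →+* E'}

include hk in
/-- Fields which are linearly disjoint over an imaginary quadratic field. -/
theorem disjoint_of_degree (φ₀ : E →+* ℂ) (ψ₀ : E' →+* ℂ) (hφ₀ : φ₀.comp θ = κ)
    (hψ₀ : ψ₀.comp θ' = κ)
    (h : 2 * finrank ℚ (comp φ₀ ψ₀) = finrank ℚ E * finrank ℚ E') : DisjointOver κ θ θ' := by
  classical
  let S : Type := {x : (E →+* ℂ) × (E' →+* ℂ) // x.1.comp θ = x.2.comp θ'}
  have hin : (inL φ₀ ψ₀).comp θ = (inR φ₀ ψ₀).comp θ' := by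
    ext x
    change φ₀ (θ x) = ψ₀ (θ' x)
    have h1 : φ₀ (θ x) = κ x := RingHom.congr_fun hφ₀ x
    have h2 : ψ₀ (θ' x) = κ x := RingHom.congr_fun hψ₀ x
    rw [h1, h2]
  let f : (comp φ₀ ψ₀ →+* ℂ) → S := fun l => ⟨res φ₀ ψ₀ l, by
    change (l.comp (inL φ₀ ψ₀)).comp θ = (l.comp (inR φ₀ ψ₀)).comp θ'
    rw [RingHom.comp_assoc, hin, RingHom.comp_assoc]⟩
  have hf : Function.Injective f := fun l l' hll => res_injective φ₀ ψ₀ (congrArg Subtype.val hll)
  let κ' : k →+* ℂ := ComplexEmbedding.conjugate κ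
  let T : Type := (Over κ θ × Over κ θ') ⊕ (Over κ' θ × Over κ' θ')
  let g : S → T := fun x => if hx : x.1.1.comp θ = κ then
      Sum.inl (⟨x.1.1, hx⟩, ⟨x.1.2, by rw [← x.2, hx]⟩) else
      Sum.inr (⟨x.1.1, (emb_quad hk κ _).resolve_left hx⟩,
        ⟨x.1.2, by rw [← x.2]; exact (emb_quad hk κ _).resolve_left hx⟩)
  have hg : Function.Injective g := by
    intro x y hxy
    simp only [g] at hxy
    split_ifs at hxy with h1 h2 h2
    · have h3 := Sum.inl.inj hxy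
      have h4 : x.1.1 = y.1.1 := congrArg Subtype.val (congrArg Prod.fst h3)
      have h5 : x.1.2 = y.1.2 := congrArg Subtype.val (congrArg Prod.snd h3)
      exact Subtype.ext (Prod.ext h4 h5)
    · have h3 := Sum.inr.inj hxy
      have h4 : x.1.1 = y.1.1 := congrArg Subtype.val (congrArg Prod.fst h3)
      have h5 : x.1.2 = y.1.2 := congrArg Subtype.val (congrArg Prod.snd h3)
      exact Subtype.ext (Prod.ext h4 h5)
  have hcard : Fintype.card T ≤ Fintype.card (comp φ₀ ψ₀ →+* ℂ) := by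
    rw [Fintype.card_sum, Fintype.card_prod, Fintype.card_prod, NumberField.Embeddings.card]
    have h1 := card_over κ θ hk
    have h2 := card_over κ θ' hk
    have h3 := card_over κ' θ hk
    have h4 := card_over κ' θ' hk
    have h5 : Fintype.card (Over κ' θ) = Fintype.card (Over κ θ) := by omega
    have h6 : Fintype.card (Over κ' θ') = Fintype.card (Over κ θ') := by omega
    rw [h5, h6]
    rw [← h1, ← h2] at h
    have h7 : 2 * Fintype.card (Over κ θ) * (2 * Fintype.card (Over κ θ')) =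
        2 * (Fintype.card (Over κ θ) * Fintype.card (Over κ θ') +
          Fintype.card (Over κ θ) * Fintype.card (Over κ θ')) := by ring
    rw [h7] at h
    omega
  have hinj : Function.Injective (g ∘ f) := hg.comp hf
  have hle := Fintype.card_le_of_injective _ hinj
  have hbij : Function.Bijective (g ∘ f) := by
    rw [Fintype.bijective_iff_injective_and_card]
    exact ⟨hinj, le_antisymm hle hcard⟩
  intro φ ψ ψ' hφ hψ hψ'
  have hsurj : ∀ χ : E' →+* ℂ, χ.comp θ' = κ → ∃ l : comp φ₀ ψ₀ →+* ℂ,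
      l.comp (inL φ₀ ψ₀) = φ ∧ l.comp (inR φ₀ ψ₀) = χ := by
    intro χ hχ
    obtain ⟨l, hl⟩ := hbij.2 (Sum.inl (⟨φ, hφ⟩, ⟨χ, hχ⟩))
    have h1 : g ⟨(φ, χ), by rw [hφ, hχ]⟩ = Sum.inl (⟨φ, hφ⟩, ⟨χ, hχ⟩) := by
      simp only [g]
      rw [dif_pos hφ]
    have h2 : f l = ⟨(φ, χ), by rw [hφ, hχ]⟩ := hg (hl.trans h1.symm)
    have h3 : res φ₀ ψ₀ l = (φ, χ) := congrArg Subtype.val h2
    exact ⟨l, congrArg Prod.fst h3, congrArg Prod.snd h3⟩
  obtain ⟨l, h1, h2⟩ := hsurj ψ hψ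
  obtain ⟨l', h3, h4⟩ := hsurj ψ' hψ'
  obtain ⟨σ, hσ⟩ := exists_aut l l'
  refine ⟨σ, ?_, ?_⟩
  · calc (σ : ℂ →+* ℂ).comp φ = ((σ : ℂ →+* ℂ).comp l).comp (inL φ₀ ψ₀) := by rw [← h1]; rfl
      _ = φ := by rw [hσ, h3]
  · calc (σ : ℂ →+* ℂ).comp ψ = ((σ : ℂ →+* ℂ).comp l).comp (inR φ₀ ψ₀) := by rw [← h2]; rfl
      _ = ψ' := by rw [hσ, h4]

end

end Pool.Agent.H298.Exo
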