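import Mathlib
import Pool.Agent.H298.Exo.Rel
import Pool.Agent.H395.Exo.Imag
import Pool.Agent.H395.Exo.Extract
import Pool.Agent.H395.Exo.IrrCrit

/-!
# The relations between Weil numbers in unlinked fields are generated by those in the single fields
-/

set_option autoImplicit false
set_option linter.unusedSectionVars false
set_option linter.unusedVariables false

namespace Pool.Agent.H298.Exo

open NumberField Module
open Pool.Agent.Y137.MV (MaximalAngleRank)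
open Pool.Agent.H395.Exo (QuadShape conj_ne_self emb_quad)

noncomputable section

variable {I : Type} [Fintype I] {K : I → Type} [∀ i, Field (K i)] [∀ i, NumberField (K i)]
  [∀ i, IsCMField (K i)] {q : ℕ} {π : ∀ i, K i}

theorem dd_avg_act (x₀ : Pts K) (n : Pts K → ℤ) {σ : ℂ ≃+* ℂ} (hσ : act K σ x₀ = x₀)
    (x : Pts K) : dd (avg x₀ n) (act K σ x) = dd (avg x₀ n) x := by
  unfold dd
  rw [avg_act x₀ n hσ, ← act_bar, avg_act x₀ n hσ]

theorem dd_avg (x₀ : Pts K) (n : Pts K → ℤ) (x : Pts K) :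
    dd (avg x₀ n) x = ∑ h : grp x₀, dd n ((h : Equiv.Perm _) x) := by
  unfold dd avg
  rw [← Finset.sum_sub_distrib]
  refine Finset.sum_congr rfl ?_
  rintro ⟨h, σ, hσ, rfl⟩ _
  change n (act K σ x) - n (act K σ (bar x)) = n (act K σ x) - n (bar (act K σ x))
  rw [act_bar]

theorem dd_avg_self (x₀ : Pts K) (n : Pts K → ℤ) :
    dd (avg x₀ n) x₀ = Fintype.card (grp x₀) * dd n x₀ := by
  have h : ∀ h : grp x₀, dd n ((h : Equiv.Perm _) x₀) = dd n x₀ := by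
    rintro ⟨h, σ, hσ, rfl⟩
    have hσ' : act K σ x₀ = x₀ := hσ
    change dd n (act K σ x₀) = dd n x₀
    rw [hσ']
  rw [dd_avg, Finset.sum_congr rfl fun g _ => h g, Finset.sum_const, Finset.card_univ,
    nsmul_eq_mul]

theorem dd_zero_of (x₀ : Pts K) (n : Pts K → ℤ) (x : Pts K) {σ : ℂ ≃+* ℂ}
    (hσ : act K σ x₀ = x₀) (hx : act K σ x = bar x) : dd (avg x₀ n) x = 0 := by
  have h := dd_avg_act x₀ n hσ x
  rw [hx, dd_bar] at h
  omega

theorem exists_pow {ι : Type} (s : Finset ι) (f : ι → ℂ) (hq : (q : ℂ) ≠ 0)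
    (h : ∀ j ∈ s, ∃ r : ℤ, f j = (q : ℂ) ^ r) : ∃ r : ℤ, ∏ j ∈ s, f j = (q : ℂ) ^ r := by
  classical
  induction s using Finset.induction_on with
  | empty => exact ⟨0, by simp⟩
  | insert t s ht ih =>
    obtain ⟨r, hr⟩ := h t (Finset.mem_insert_self t s)
    obtain ⟨r', hr'⟩ := ih fun u hu => h u (Finset.mem_insert_of_mem hu)
    exact ⟨r + r', by rw [Finset.prod_insert ht, hr, hr', zpow_add₀ hq]⟩

theorem single_rel (hq : (q : ℂ) ≠ 0) (hne : ∀ x : Pts K, x.2 (π x.1) ≠ 0)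
    (hw : ∀ i, ∀ φ : K i →+* ℂ, φ (π i) * ComplexEmbedding.conjugate φ (π i) = q) (i₀ : I)
    {m : Pts K → ℤ} (hm : IsRel q π m) (h0 : ∀ j, j ≠ i₀ → ∀ ψ, dd m ⟨j, ψ⟩ = 0) :
    ∃ r : ℤ, ∏ φ : K i₀ →+* ℂ, (φ (π i₀)) ^ (2 * m ⟨i₀, φ⟩) = (q : ℂ) ^ r := by
  classical
  obtain ⟨r, hr⟩ := hm
  rw [Fintype.prod_sigma] at hr
  set P : I → ℂ := fun j => ∏ φ : K j →+* ℂ, (φ (π j)) ^ m ⟨j, φ⟩ with hP
  have hr' : ∏ j, P j = (q : ℂ) ^ r := hr
  have h1 : ∀ j ∈ Finset.univ.erase i₀, ∃ s : ℤ, P j ^ 2 = (q : ℂ) ^ s := by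
    intro j hj
    have hj' := Finset.ne_of_mem_erase hj
    refine ⟨∑ φ : K j →+* ℂ, m ⟨j, φ⟩, ?_⟩
    have h2 : P j = ∏ φ : K j →+* ℂ, (ComplexEmbedding.conjugate φ (π j)) ^ m ⟨j, φ⟩ := by
      rw [hP]
      refine Fintype.prod_bijective (fun φ : K j →+* ℂ => ComplexEmbedding.conjugate φ)
        (ComplexEmbedding.involutive_conjugate (K j)).bijective _ _ fun φ => ?_
      have h3 := h0 j hj' φ
      unfold dd at h3
      have h4 : m ⟨j, ComplexEmbedding.conjugate φ⟩ = m ⟨j, φ⟩ := by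
        change m ⟨j, φ⟩ - m ⟨j, ComplexEmbedding.conjugate φ⟩ = 0 at h3
        omega
      rw [h4, ComplexEmbedding.involutive_conjugate (K j) φ]
    have h5 : P j ^ 2 = P j * ∏ φ : K j →+* ℂ, (ComplexEmbedding.conjugate φ (π j)) ^ m ⟨j, φ⟩ := by
      rw [← h2, sq]
    rw [h5, hP]
    simp only
    rw [← Finset.prod_mul_distrib]
    have h6 : ∀ φ : K j →+* ℂ, (φ (π j)) ^ m ⟨j, φ⟩ *
        (ComplexEmbedding.conjugate φ (π j)) ^ m ⟨j, φ⟩ = (q : ℂ) ^ m ⟨j, φ⟩ := by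
      intro φ
      rw [← mul_zpow, hw]
    rw [Finset.prod_congr rfl fun φ _ => h6 φ]
    have h7 : ∀ s : Finset (K j →+* ℂ), ∏ φ ∈ s, (q : ℂ) ^ m ⟨j, φ⟩ =
        (q : ℂ) ^ (∑ φ ∈ s, m ⟨j, φ⟩) := by
      intro s
      induction s using Finset.induction_on with
      | empty => simp
      | insert t s ht ih => rw [Finset.prod_insert ht, Finset.sum_insert ht, zpow_add₀ hq, ih]
    exact h7 _
  obtain ⟨S, hS⟩ := exists_pow (Finset.univ.erase i₀) (fun j => P j ^ 2) hq h1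
  have h8 : P i₀ * ∏ j ∈ Finset.univ.erase i₀, P j = (q : ℂ) ^ r := by
    rw [← hr']
    exact Finset.mul_prod_erase Finset.univ P (Finset.mem_univ i₀)
  have h9 : P i₀ ^ 2 * (q : ℂ) ^ S = (q : ℂ) ^ (2 * r) := by
    rw [← hS, Finset.prod_pow, ← mul_pow, h8, mul_comm 2 r, zpow_mul]
    rfl
  refine ⟨2 * r - S, ?_⟩
  have h10 : ∏ φ : K i₀ →+* ℂ, (φ (π i₀)) ^ (2 * m ⟨i₀, φ⟩) = P i₀ ^ 2 := by
    rw [hP]
    simp only
    rw [← Finset.prod_pow]
    refine Finset.prod_congr rfl fun φ _ => ?_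
    rw [mul_comm 2, zpow_mul]
    rfl
  rw [h10, zpow_sub₀ hq, ← h9, mul_div_assoc, div_self (zpow_ne_zero _ hq), mul_one]

/-- No relations in a field which is unlinked from the others. -/
theorem free_case (hq : (q : ℂ) ≠ 0) (hne : ∀ x : Pts K, x.2 (π x.1) ≠ 0)
    (hw : ∀ i, ∀ φ : K i →+* ℂ, φ (π i) * ComplexEmbedding.conjugate φ (π i) = q) (i₀ : I)
    (hU : ∀ j, j ≠ i₀ → Unlinked (K i₀) (K j))
    (hS : MaximalAngleRank q (fun _ : Unit => π i₀)) {n : Pts K → ℤ} (hn : IsRel q π n)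
    (φ : K i₀ →+* ℂ) : dd n ⟨i₀, φ⟩ = 0 := by
  classical
  set x₀ : Pts K := ⟨i₀, φ⟩ with hx₀
  have hm := hn.avg hq hne x₀
  obtain ⟨r, hr⟩ := single_rel hq hne hw i₀ hm fun j hj ψ => by
    obtain ⟨σ, h1, h2⟩ := hU j hj φ ψ
    refine dd_zero_of x₀ n ⟨j, ψ⟩ (σ := σ) ?_ ?_
    · rw [hx₀, act_mk, h1]
    · rw [act_mk, h2]
      rfl
  have h3 := hS r (fun x => 2 * avg x₀ n ⟨i₀, x.2⟩) (by
    rw [Fintype.prod_sigma, Fintype.prod_unique]
    exact hr) () φ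
  have h4 : dd (avg x₀ n) x₀ = 0 := by
    unfold dd
    change avg x₀ n ⟨i₀, φ⟩ - avg x₀ n ⟨i₀, ComplexEmbedding.conjugate φ⟩ = 0
    simp only at h3
    omega
  rw [dd_avg_self] at h4
  have h5 : (Fintype.card (grp x₀) : ℤ) ≠ 0 := by
    exact_mod_cast Fintype.card_ne_zero
  exact (mul_eq_zero.1 h4).resolve_left h5

section quad

variable {k : Type} [Field k] [NumberField k] [IsCMField k] (hk : finrank ℚ k = 2) {κ : k →+* ℂ}

/-- The sum over the embeddings which extend `κ`. -/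
def oT {E : Type} [Field E] [NumberField E] (κ : k →+* ℂ) (t : k →+* E)
    (f : (E →+* ℂ) → ℤ) : ℤ := by
  classical
  exact ∑ ψ : E →+* ℂ, if ψ.comp t = κ then f ψ else 0

theorem over_iff {E : Type} [Field E] {t : k →+* E} {σ : ℂ ≃+* ℂ} (hσ : ∀ x, σ (κ x) = κ x)
    (ψ : E →+* ℂ) : ((σ : ℂ →+* ℂ).comp ψ).comp t = κ ↔ ψ.comp t = κ := by
  constructor
  · intro h
    ext x
    apply σ.injective
    rw [hσ]
    exact RingHom.congr_fun h x
  · intro h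
    ext x
    have h2 : ψ (t x) = κ x := RingHom.congr_fun h x
    change σ (ψ (t x)) = κ x
    rw [h2, hσ]

/-- The automorphism `σ` on the embeddings of one field. -/
def embEquiv (E : Type) [Field E] (σ : ℂ ≃+* ℂ) : Equiv.Perm (E →+* ℂ) where
  toFun φ := (σ : ℂ →+* ℂ).comp φ
  invFun φ := (σ.symm : ℂ →+* ℂ).comp φ
  left_inv φ := by
    ext x
    exact σ.symm_apply_apply _
  right_inv φ := by
    ext x
    exact σ.apply_symm_apply _

theorem oT_comp {E : Type} [Field E] [NumberField E] {t : k →+* E} {σ : ℂ ≃+* ℂ}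
    (hσ : ∀ x, σ (κ x) = κ x) (f : (E →+* ℂ) → ℤ) :
    oT κ t (fun ψ => f ((σ : ℂ →+* ℂ).comp ψ)) = oT κ t f := by
  classical
  unfold oT
  refine Fintype.sum_equiv (embEquiv E σ) _ _ fun ψ => ?_
  change _ = if ((σ : ℂ →+* ℂ).comp ψ).comp t = κ then f ((σ : ℂ →+* ℂ).comp ψ) else 0
  by_cases h : ψ.comp t = κ
  · rw [if_pos h, if_pos ((over_iff hσ ψ).2 h)]
  · rw [if_neg h, if_neg fun h' => h ((over_iff hσ ψ).1 h')]

theorem oT_sub {E : Type} [Field E] [NumberField E] {t : k →+* E} (f g : (E →+* ℂ) → ℤ) :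
    oT κ t (fun ψ => f ψ - g ψ) = oT κ t f - oT κ t g := by
  classical
  unfold oT
  rw [← Finset.sum_sub_distrib]
  refine Finset.sum_congr rfl fun ψ _ => ?_
  split_ifs
  · rfl
  · simp

theorem oT_sum {E : Type} [Field E] [NumberField E] {t : k →+* E} {ι : Type} (s : Finset ι)
    (f : ι → (E →+* ℂ) → ℤ) : oT κ t (fun ψ => ∑ h ∈ s, f h ψ) = ∑ h ∈ s, oT κ t (f h) := by
  classical
  unfold oT
  rw [Finset.sum_comm]
  refine Finset.sum_congr rfl fun ψ _ => ?_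
  split_ifs
  · rfl
  · simp

theorem oT_const {E : Type} [Field E] [NumberField E] {t : k →+* E} (f : (E →+* ℂ) → ℤ) (c : ℤ)
    (hf : ∀ ψ : E →+* ℂ, ψ.comp t = κ → f ψ = c) : oT κ t f = oT κ t (fun _ => 1) * c := by
  classical
  unfold oT
  rw [Finset.sum_mul]
  refine Finset.sum_congr rfl fun ψ _ => ?_
  split_ifs with h
  · rw [hf ψ h, one_mul]
  · simp

theorem oT_one_pos {E : Type} [Field E] [NumberField E] {t : k →+* E} {φ : E →+* ℂ}
    (hφ : φ.comp t = κ) : 0 < oT κ t (fun _ => 1) := by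
  classical
  unfold oT
  refine Finset.sum_pos' (fun ψ _ => ?_) ⟨φ, Finset.mem_univ _, ?_⟩
  · split_ifs <;> norm_num
  · rw [if_pos hφ]
    norm_num

include hk in
/-- The relations are constant over `k`. -/
theorem quad_case (hq : (q : ℂ) ≠ 0) (hne : ∀ x : Pts K, x.2 (π x.1) ≠ 0)
    (hw : ∀ i, ∀ φ : K i →+* ℂ, φ (π i) * ComplexEmbedding.conjugate φ (π i) = q)
    {J : Set I} {θ : ∀ i, i ∈ J → (k →+* K i)} (i₀ : I) (hi₀ : i₀ ∈ J)
    (hU : ∀ j, j ∉ J → Unlinked (K i₀) (K j))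
    (hD : ∀ j (hj : j ∈ J), j ≠ i₀ → DisjointOver κ (θ i₀ hi₀) (θ j hj))
    (hS : QuadShape q (fun _ : Unit => π i₀) κ Set.univ (fun _ _ => θ i₀ hi₀))
    {n : Pts K → ℤ} (hn : IsRel q π n) (φ₀ φ₁ : K i₀ →+* ℂ) (h₀ : φ₀.comp (θ i₀ hi₀) = κ)
    (h₁ : φ₁.comp (θ i₀ hi₀) = κ) : dd n ⟨i₀, φ₀⟩ = dd n ⟨i₀, φ₁⟩ := by
  classical
  set t := θ i₀ hi₀ with ht
  have key : ∀ φ : K i₀ →+* ℂ, φ.comp t = κ →
      oT κ t (fun _ => 1) * dd n ⟨i₀, φ⟩ = oT κ t (fun ψ => dd n ⟨i₀, ψ⟩) := by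
    intro φ hφ
    set x₀ : Pts K := ⟨i₀, φ⟩ with hx₀
    set m := avg x₀ n with hm'
    have hm : IsRel q π m := hn.avg hq hne x₀
    have hfix : ∀ σ : ℂ ≃+* ℂ, (σ : ℂ →+* ℂ).comp φ = φ → ∀ x, σ (κ x) = κ x := by
      intro σ hσ x
      have h2 : φ (t x) = κ x := RingHom.congr_fun hφ x
      rw [← h2]
      exact RingHom.congr_fun hσ (t x)
    -- outside of `J`
    have hout : ∀ j, j ∉ J → ∀ ψ, dd m ⟨j, ψ⟩ = 0 := by
      intro j hj ψ
      obtain ⟨σ, h1, h2⟩ := hU j hj φ ψ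
      refine dd_zero_of x₀ n ⟨j, ψ⟩ (σ := σ) ?_ ?_
      · rw [hx₀, act_mk, h1]
      · rw [act_mk, h2]
        rfl
    have hin : ∀ j (hj : j ∈ J), j ≠ i₀ → ∀ ψ ψ' : K j →+* ℂ, ψ.comp (θ j hj) = κ →
        ψ'.comp (θ j hj) = κ → dd m ⟨j, ψ⟩ = dd m ⟨j, ψ'⟩ := by
      intro j hj hne' ψ ψ' hψ hψ'
      obtain ⟨σ, h1, h2⟩ := hD j hj hne' φ ψ ψ' hφ hψ hψ'
      have h3 := dd_avg_act x₀ n (σ := σ) (by rw [hx₀, act_mk, h1]) ⟨j, ψ⟩
      rw [act_mk, h2] at h3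
      exact h3.symm
    have hbarover : ∀ j (hj : j ∈ J) (ψ : K j →+* ℂ), ¬ ψ.comp (θ j hj) = κ →
        (ComplexEmbedding.conjugate ψ).comp (θ j hj) = κ := by
      intro j hj ψ hψ
      have h1 : (ComplexEmbedding.conjugate ψ).comp (θ j hj) =
          ComplexEmbedding.conjugate (ψ.comp (θ j hj)) := rfl
      rw [h1]
      rcases emb_quad hk κ (ψ.comp (θ j hj)) with h2 | h2
      · exact absurd h2 hψ
      · rw [h2, ComplexEmbedding.involutive_conjugate k κ]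
    -- the translates
    have htr : ∀ τ : ℂ ≃+* ℂ, (∀ x, τ (κ x) = κ x) → ∀ ψ : K i₀ →+* ℂ, ψ.comp t = κ →
        dd m ⟨i₀, ψ⟩ = dd m ⟨i₀, (τ : ℂ →+* ℂ).comp ψ⟩ := by
      intro τ hτ ψ hψ
      set m' : Pts K → ℤ := fun x => m x - m (act K τ x) with hm''
      have hrel : IsRel q π m' := hm.sub hq hne (hm.act τ)
      have hdd : ∀ x, dd m' x = dd m x - dd m (act K τ x) := by
        intro x
        simp only [dd, hm'', act_bar]
        ring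
      have hz : ∀ j, j ≠ i₀ → ∀ χ, dd m' ⟨j, χ⟩ = 0 := by
        intro j hj χ
        rw [hdd, act_mk]
        by_cases hjJ : j ∈ J
        · by_cases hχ : χ.comp (θ j hjJ) = κ
          · rw [hin j hjJ hj χ _ hχ ((over_iff hτ χ).2 hχ), sub_self]
          · have h1 := hbarover j hjJ χ hχ
            have h2 := hin j hjJ hj _ _ h1 ((over_iff hτ _).2 h1)
            have h3 : (⟨j, ComplexEmbedding.conjugate χ⟩ : Pts K) = bar ⟨j, χ⟩ := rfl
            have h4 : (⟨j, (τ : ℂ →+* ℂ).comp (ComplexEmbedding.conjugate χ)⟩ : Pts K) =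
                bar ⟨j, (τ : ℂ →+* ℂ).comp χ⟩ := by
              rw [comp_conj]
              rfl
            rw [h4, h3, dd_bar, dd_bar] at h2
            omega
        · rw [hout j hjJ, hout j hjJ, sub_self]
      obtain ⟨r, hr⟩ := single_rel hq hne hw i₀ hrel hz
      have hS' := (hS r (fun x => 2 * m' ⟨i₀, x.2⟩) (by
        rw [Fintype.prod_sigma, Fintype.prod_unique]
        exact hr)).2 () (Set.mem_univ _)
      have hconst : ∀ χ : K i₀ →+* ℂ, χ.comp t = κ → dd m' ⟨i₀, χ⟩ = dd m' ⟨i₀, ψ⟩ := by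
        intro χ hχ
        have h1 := hS' χ ψ hχ hψ
        unfold dd
        change m' ⟨i₀, χ⟩ - m' ⟨i₀, ComplexEmbedding.conjugate χ⟩ =
          m' ⟨i₀, ψ⟩ - m' ⟨i₀, ComplexEmbedding.conjugate ψ⟩
        simp only at h1
        omega
      have hsum := oT_const (κ := κ) (t := t) (fun χ => dd m' ⟨i₀, χ⟩) _ hconst
      have hsum0 : oT κ t (fun χ => dd m' ⟨i₀, χ⟩) = 0 := by
        have h1 : (fun χ : K i₀ →+* ℂ => dd m' ⟨i₀, χ⟩) = fun χ =>
            dd m ⟨i₀, χ⟩ - dd m ⟨i₀, (τ : ℂ →+* ℂ).comp χ⟩ := by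
          funext χ
          rw [hdd, act_mk]
        rw [h1, oT_sub, oT_comp hτ fun χ => dd m ⟨i₀, χ⟩, sub_self]
      rw [hsum0] at hsum
      have h1 := (mul_eq_zero.1 hsum.symm).resolve_left (oT_one_pos hψ).ne'
      rw [hdd, act_mk] at h1
      omega
    have hall : ∀ ψ : K i₀ →+* ℂ, ψ.comp t = κ →
        dd m ⟨i₀, ψ⟩ = Fintype.card (grp x₀) * dd n ⟨i₀, φ⟩ := by
      intro ψ hψ
      obtain ⟨τ, hτ, h2⟩ := Pool.Agent.H395.Exo.exists_aut_over κ t ψ φ hψ hφ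
      rw [htr τ hτ ψ hψ, h2]
      exact dd_avg_self x₀ n
    have h3 := oT_const (κ := κ) (t := t) (fun ψ => dd m ⟨i₀, ψ⟩) _ hall
    have h4 : oT κ t (fun ψ => dd m ⟨i₀, ψ⟩) =
        Fintype.card (grp x₀) * oT κ t (fun ψ => dd n ⟨i₀, ψ⟩) := by
      have h5 : (fun ψ : K i₀ →+* ℂ => dd m ⟨i₀, ψ⟩) = fun ψ =>
          ∑ h : grp x₀, dd n ((h : Equiv.Perm _) ⟨i₀, ψ⟩) := by
        funext ψ
        exact dd_avg x₀ n _
      rw [h5, oT_sum]
      have h6 : ∀ h : grp x₀, oT κ t (fun ψ => dd n ((h : Equiv.Perm _) ⟨i₀, ψ⟩)) =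
          oT κ t (fun ψ => dd n ⟨i₀, ψ⟩) := by
        rintro ⟨h, σ, hσ, rfl⟩
        have hσ' : act K σ x₀ = x₀ := hσ
        have h7 : (σ : ℂ →+* ℂ).comp φ = φ := by
          have h8 : (⟨i₀, (σ : ℂ →+* ℂ).comp φ⟩ : Pts K) = ⟨i₀, φ⟩ := hσ'
          exact eq_of_heq (Sigma.mk.inj h8).2
        exact oT_comp (hfix σ h7) fun ψ => dd n ⟨i₀, ψ⟩
      rw [Finset.sum_congr rfl fun h _ => h6 h, Finset.sum_const, Finset.card_univ, nsmul_eq_mul]
    have h5 : (Fintype.card (grp x₀) : ℤ) ≠ 0 := by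
      exact_mod_cast Fintype.card_ne_zero
    rw [h4] at h3
    have h6 : (Fintype.card (grp x₀) : ℤ) * oT κ t (fun ψ => dd n ⟨i₀, ψ⟩) =
        Fintype.card (grp x₀) * (oT κ t (fun _ => 1) * dd n ⟨i₀, φ⟩) := by
      rw [h3]
      ring
    exact (mul_left_cancel₀ h5 h6).symm
  have h2 := key φ₀ h₀
  have h3 := key φ₁ h₁
  exact mul_left_cancel₀ (oT_one_pos h₀).ne' (h2.trans h3.symm)

end quad

end

end Pool.Agent.H298.Exo
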