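import Mathlib
import Pool.Agent.H298.Exo.Decouple

/-!
# The relations between Weil numbers in unlinked fields: the exact statement
-/

set_option autoImplicit false
set_option linter.unusedSectionVars false
set_option linter.unusedVariables false

namespace Pool.Agent.H298.Exo

open NumberField Module
open Pool.Agent.Y137.MV (MaximalAngleRank)
open Pool.Agent.H395.Exo (QuadShape conj_ne_self emb_quad)

noncomputable section

variable {I : Type} [Fintype I] {K : I → Type} [∀ i, Field (K i)] [∀ i, NumberField (K i)]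
  [∀ i, IsCMField (K i)] {q : ℕ} {π : ∀ i, K i}

open Classical in
/-- The extension by zero. -/
def ext0 (i₀ : I) (m : (K i₀ →+* ℂ) → ℤ) (x : Pts K) : ℤ :=
  if h : x.1 = i₀ then m (h ▸ x.2) else 0

theorem ext0_same (i₀ : I) (m : (K i₀ →+* ℂ) → ℤ) (φ : K i₀ →+* ℂ) :
    ext0 i₀ m ⟨i₀, φ⟩ = m φ := dif_pos rfl

theorem ext0_other (i₀ : I) (m : (K i₀ →+* ℂ) → ℤ) {i : I} (hi : i ≠ i₀) (φ : K i →+* ℂ) :
    ext0 i₀ m ⟨i, φ⟩ = 0 := dif_neg hi

theorem ext0_rel (i₀ : I) (m : (K i₀ →+* ℂ) → ℤ) (r : ℤ)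
    (h : ∏ φ : K i₀ →+* ℂ, (φ (π i₀)) ^ m φ = (q : ℂ) ^ r) :
    ∏ x : Pts K, (x.2 (π x.1)) ^ ext0 i₀ m x = (q : ℂ) ^ r := by
  classical
  rw [Fintype.prod_sigma, ← h]
  rw [Finset.prod_eq_single i₀]
  · exact Finset.prod_congr rfl fun φ _ => by
      change (φ (π i₀)) ^ ext0 i₀ m ⟨i₀, φ⟩ = _
      rw [ext0_same]
  · intro i _ hi
    refine Finset.prod_eq_one fun φ _ => ?_
    change (φ (π i)) ^ ext0 i₀ m ⟨i, φ⟩ = _
    rw [ext0_other i₀ m hi, zpow_zero]
  · intro h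
    exact absurd (Finset.mem_univ _) h

variable {k : Type} [Field k] [NumberField k] [IsCMField k] (hk : finrank ℚ k = 2) {κ : k →+* ℂ}
  {J : Set I} {θ : ∀ i, i ∈ J → (k →+* K i)}

theorem free_of_shape (hS : QuadShape q π κ J θ) (i : I) (hi : i ∉ J) :
    MaximalAngleRank q (fun _ : Unit => π i) := by
  intro r n hn _ φ
  rw [Fintype.prod_sigma, Fintype.prod_unique] at hn
  have h := (hS r (ext0 i fun φ => n ⟨(), φ⟩) (ext0_rel i _ r hn)).1 i hi φ
  rw [ext0_same, ext0_same] at h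
  exact h

theorem over_of_shape (hS : QuadShape q π κ J θ) (i : I) (hi : i ∈ J) :
    QuadShape q (fun _ : Unit => π i) κ Set.univ (fun _ _ => θ i hi) := by
  intro r n hn
  rw [Fintype.prod_sigma, Fintype.prod_unique] at hn
  refine ⟨fun _ h => absurd (Set.mem_univ _) h, fun _ _ φ ψ hφ hψ => ?_⟩
  have h := (hS r (ext0 i fun φ => n ⟨(), φ⟩) (ext0_rel i _ r hn)).2 i hi φ ψ hφ hψ
  rw [ext0_same, ext0_same, ext0_same, ext0_same] at h
  exact h

theorem nonzero_of (hq : (q : ℂ) ≠ 0)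
    (hw : ∀ i, ∀ φ : K i →+* ℂ, φ (π i) * ComplexEmbedding.conjugate φ (π i) = q) (x : Pts K) :
    x.2 (π x.1) ≠ 0 := by
  intro h
  have h1 := hw x.1 x.2
  rw [h, zero_mul] at h1
  exact hq h1.symm

include hk in
/-- **The exact shape of the relations between Weil numbers in unlinked fields.** -/
theorem quadShape_iff (hq : (q : ℂ) ≠ 0)
    (hw : ∀ i, ∀ φ : K i →+* ℂ, φ (π i) * ComplexEmbedding.conjugate φ (π i) = q)
    (hU : ∀ i j, i ≠ j → (i ∉ J ∨ j ∉ J) → Unlinked (K i) (K j))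
    (hD : ∀ i j (hi : i ∈ J) (hj : j ∈ J), i ≠ j → DisjointOver κ (θ i hi) (θ j hj)) :
    QuadShape q π κ J θ ↔ (∀ i, i ∉ J → MaximalAngleRank q (fun _ : Unit => π i)) ∧
      ∀ i (hi : i ∈ J), QuadShape q (fun _ : Unit => π i) κ Set.univ (fun _ _ => θ i hi) := by
  constructor
  · exact fun hS => ⟨fun i hi => free_of_shape hS i hi, fun i hi => over_of_shape hS i hi⟩
  · rintro ⟨h1, h2⟩ r n hn
    have hne := nonzero_of hq hw
    refine ⟨fun i hi φ => ?_, fun i hi φ ψ hφ hψ => ?_⟩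
    · have h := free_case hq hne hw i (fun j hj => hU i j hj.symm (Or.inl hi)) (h1 i hi)
        ⟨r, hn⟩ φ
      unfold dd at h
      change n ⟨i, φ⟩ - n ⟨i, ComplexEmbedding.conjugate φ⟩ = 0 at h
      omega
    · exact quad_case hk hq hne hw i hi
        (fun j hj => hU i j (fun h => hj (h ▸ hi)) (Or.inr hj))
        (fun j hj hji => hD i j hi hj hji.symm) (h2 i hi) ⟨r, hn⟩ φ ψ hφ hψ

end

end Pool.Agent.H298.Exo
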