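import Mathlib
import Pool.Graph.R_seed8.TH117.BL.Defs

/-!
# Sets of factors of small dimension
-/

set_option autoImplicit false
set_option linter.unusedSectionVars false
set_option linter.unusedVariables false

namespace Pool.Agent.H298.Exo

open NumberField Module Pool.Agent.W495.TA Pool.Agent.TH117

open Classical in
/-- The fields have degree at most six, or the sum of their degrees is at most ten and they are not
an imaginary quadratic field and a field of degree eight; and two of them which have the same Galois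
closure are Galois over `ℚ`. -/
def GoodFields {I : Type} [Fintype I] (K : I → Type) [∀ i, Field (K i)] [∀ i, NumberField (K i)]
    (s : Set I) : Prop :=
  ((∀ i ∈ s, finrank ℚ (K i) ≤ 6) ∨ (∑ i with i ∈ s, finrank ℚ (K i) ≤ 10 ∧
    ∀ i ∈ s, ∀ j ∈ s, finrank ℚ (K i) = 2 → finrank ℚ (K j) ≠ 8)) ∧
  ∀ i ∈ s, ∀ j ∈ s, i ≠ j →
    IntermediateField.normalClosure ℚ (K i) ℂ = IntermediateField.normalClosure ℚ (K j) ℂ →
      IsGalois ℚ (K i)

variable {p : ℕ} [hp : Fact p.Prime] {ν : PadicAlgCl p ≃+* ℂ} {I : Type} [Fintype I]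
  {K : I → Type} [∀ i, Field (K i)] [∀ i, NumberField (K i)]

theorem normalClosure_congr {E F : Type} [Field E] [NumberField E] [Field F] [NumberField F]
    (e : E ≃ₐ[ℚ] F) : IntermediateField.normalClosure ℚ E ℂ =
      IntermediateField.normalClosure ℚ F ℂ := by
  have h : ∀ {E F : Type} [Field E] [NumberField E] [Field F] [NumberField F]
      (e : E ≃ₐ[ℚ] F), IntermediateField.normalClosure ℚ E ℂ ≤
        IntermediateField.normalClosure ℚ F ℂ := by
    intro E F _ _ _ _ e
    rw [normalClosure_le_iff]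
    intro f
    have h1 : f.fieldRange ≤ (f.comp (e.symm : F →ₐ[ℚ] E)).fieldRange := by
      rintro x ⟨y, rfl⟩
      refine ⟨e y, ?_⟩
      change f (e.symm (e y)) = f y
      rw [e.symm_apply_apply]
    exact h1.trans (AlgHom.fieldRange_le_normalClosure _)
  exact le_antisymm (h e) (h e.symm)

open Classical in
theorem goodSet_of {Y : RedAV p ν} {s : Set I} (hs : GoodFields K s) {S : Set Y.X.I}
    (t : ∀ l, l ∈ S → I) (ht : ∀ l (h : l ∈ S), t l h ∈ s)
    (hinj : ∀ l l' (h : l ∈ S) (h' : l' ∈ S), t l h = t l' h' → l = l')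
    (e : ∀ l (h : l ∈ S), Nonempty (K (t l h) ≃ₐ[ℚ] (Y.X.factor l).E)) :
    BL.IsGoodSet Y S := by
  have hfin : ∀ l (h : l ∈ S), finrank ℚ (Y.X.factor l).E = finrank ℚ (K (t l h)) := by
    intro l h
    obtain ⟨e₁⟩ := e l h
    exact e₁.toLinearEquiv.finrank_eq.symm
  obtain ⟨h12, h3⟩ := hs
  have hcl : ∀ l (hl : l ∈ S) l' (hl' : l' ∈ S), l ≠ l' →
      IntermediateField.normalClosure ℚ (Y.X.factor l).E ℂ =
        IntermediateField.normalClosure ℚ (Y.X.factor l').E ℂ →
          IsGalois ℚ (Y.X.factor l).E := by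
    intro l hl l' hl' hll hcl
    obtain ⟨e₁⟩ := e l hl
    obtain ⟨e₂⟩ := e l' hl'
    have h4 := h3 _ (ht l hl) _ (ht l' hl') (fun h => hll (hinj l l' hl hl' h))
      ((normalClosure_congr e₁).trans (hcl.trans (normalClosure_congr e₂).symm))
    exact IsGalois.of_algEquiv e₁
  rcases h12 with h1 | ⟨h1, h2⟩
  · right
    refine ⟨fun l hl => ?_, fun l hl l' hl' hc => ?_⟩
    · rw [hfin l hl]
      exact h1 _ (ht l hl)
    · by_cases hll : l = l'
      · subst hll
        right
        right
        right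
        exact ⟨RingEquiv.refl _, 1, one_pos, rfl⟩
      · left
        exact hcl l hl l' hl' hll hc
  · left
    refine ⟨?_, fun i hi k hk hik hexc => ?_⟩
    · rw [← Finset.sum_filter]
      refine le_trans (le_of_eq ?_) (le_trans (Finset.sum_le_sum_of_subset
        (s := (Finset.univ.filter (· ∈ S)).attach.image
          fun l => t l.1 (Finset.mem_filter.1 l.2).2)
        (t := Finset.univ.filter (· ∈ s)) (f := fun i => finrank ℚ (K i)) ?_) h1)
      · rw [Finset.sum_image]
        · rw [← Finset.sum_attach]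
          exact Finset.sum_congr rfl fun l _ => hfin l.1 (Finset.mem_filter.1 l.2).2
        · intro l _ l' _ hll
          exact Subtype.ext (hinj _ _ _ _ hll)
      · intro i hi
        obtain ⟨l, -, rfl⟩ := Finset.mem_image.1 hi
        exact Finset.mem_filter.2 ⟨Finset.mem_univ _, ht _ _⟩
    · rcases hexc.1 with ⟨-, -, h4, -, h5⟩ | ⟨h4, h5⟩
      · exact h4 (hcl i hi k hk hik h5)
      · rw [hfin i hi] at h4
        rw [hfin k hk] at h5
        exact h2 _ (ht i hi) _ (ht k hk) h4 h5

end Pool.Agent.H298.Exo
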