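import Mathlib
import Pool.Agent.H298.Exo.Decouple

/-!
# The relations between Weil numbers split off the part of a field which is unlinked from the others
-/

set_option autoImplicit false
set_option linter.unusedSectionVars false
set_option linter.unusedVariables false

namespace Pool.Agent.H298.Exo

open NumberField Module

noncomputable section

variable {I : Type} [Fintype I] {K : I → Type} [∀ i, Field (K i)] [∀ i, NumberField (K i)]
  [∀ i, IsCMField (K i)] {q : ℕ} {π : ∀ i, K i}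

/-- The rational multiples of relations. -/
def RQ (hq : (q : ℂ) ≠ 0) (hne : ∀ x : Pts K, x.2 (π x.1) ≠ 0) :
    Submodule ℚ (Pts K → ℚ) where
  carrier := {c | ∃ N : ℕ, 0 < N ∧ ∃ n : Pts K → ℤ, IsRel q π n ∧ ∀ x, (N : ℚ) * c x = n x}
  add_mem' := by
    rintro c c' ⟨N, hN, n, hn, h⟩ ⟨N', hN', n', hn', h'⟩
    refine ⟨N * N', Nat.mul_pos hN hN', _, (hn.mul N').add hq hne (hn'.mul N), fun x => ?_⟩
    simp only [Pi.add_apply]
    push_cast
    rw [← h, ← h']
    ring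
  zero_mem' := ⟨1, one_pos, _, IsRel.zero, fun x => by simp⟩
  smul_mem' := by
    rintro r c ⟨N, hN, n, hn, h⟩
    refine ⟨N * r.den, Nat.mul_pos hN r.pos, _, hn.mul r.num, fun x => ?_⟩
    simp only [Pi.smul_apply, smul_eq_mul]
    push_cast
    rw [← h]
    have h1 : (r.den : ℚ) * r = r.num := by
      rw [mul_comm]
      exact Rat.mul_den_eq_num r
    calc (N : ℚ) * r.den * (r * c x) = (r.den * r) * (N * c x) := by ring
      _ = r.num * (N * c x) := by rw [h1]

theorem RQ_act (hq : (q : ℂ) ≠ 0) (hne : ∀ x : Pts K, x.2 (π x.1) ≠ 0) (σ : ℂ ≃+* ℂ)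
    {c : Pts K → ℚ} (hc : c ∈ RQ hq hne) : (fun x => c (act K σ x)) ∈ RQ hq hne := by
  obtain ⟨N, hN, n, hn, h⟩ := hc
  exact ⟨N, hN, _, hn.act σ, fun x => h _⟩

/-- The part of the relations which is supported in the fields `K i`, `i ∈ s`. -/
def RQ1 (hq : (q : ℂ) ≠ 0) (hne : ∀ x : Pts K, x.2 (π x.1) ≠ 0) (s : Set I) :
    Submodule ℚ (Pts K → ℚ) where
  carrier := {c | c ∈ RQ hq hne ∧ ∀ x : Pts K, x.1 ∉ s → c x = 0}
  add_mem' := by
    rintro c c' ⟨h1, h2⟩ ⟨h1', h2'⟩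
    exact ⟨add_mem h1 h1', fun x hx => by simp [h2 x hx, h2' x hx]⟩
  zero_mem' := ⟨zero_mem _, fun x _ => rfl⟩
  smul_mem' := by
    rintro r c ⟨h1, h2⟩
    exact ⟨Submodule.smul_mem _ _ h1, fun x hx => by simp [h2 x hx]⟩

/-- The scalar product. -/
def dotB (K : I → Type) [∀ i, Field (K i)] [∀ i, NumberField (K i)] :
    LinearMap.BilinForm ℚ (Pts K → ℚ) :=
  LinearMap.mk₂ ℚ (fun c d => ∑ x, c x * d x)
    (fun c c' d => by simp only [Pi.add_apply, add_mul, Finset.sum_add_distrib])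
    (fun r c d => by simp only [Pi.smul_apply, smul_eq_mul, mul_assoc, Finset.mul_sum])
    (fun c d d' => by simp only [Pi.add_apply, mul_add, Finset.sum_add_distrib])
    (fun r c d => by
      simp only [Pi.smul_apply, smul_eq_mul, Finset.mul_sum]
      exact Finset.sum_congr rfl fun x _ => by ring)

theorem dotB_apply (c d : Pts K → ℚ) : dotB K c d = ∑ x, c x * d x := rfl

theorem dotB_symm (c d : Pts K → ℚ) : dotB K c d = dotB K d c := by
  rw [dotB_apply, dotB_apply]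
  exact Finset.sum_congr rfl fun x _ => mul_comm _ _

theorem dotB_self {c : Pts K → ℚ} (h : dotB K c c = 0) : c = 0 := by
  rw [dotB_apply, Finset.sum_eq_zero_iff_of_nonneg fun x _ => mul_self_nonneg _] at h
  funext x
  exact mul_self_eq_zero.1 (h x (Finset.mem_univ x))

theorem dotB_act (σ : ℂ ≃+* ℂ) (c d : Pts K → ℚ) :
    dotB K (fun x => c (act K σ x)) d = dotB K c (fun x => d (act K σ⁻¹ x)) := by
  rw [dotB_apply, dotB_apply]
  refine Fintype.sum_equiv (act K σ) _ _ fun x => ?_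
  have h : act K σ⁻¹ (act K σ x) = x := by
    rw [← Equiv.Perm.mul_apply, ← act_mul, inv_mul_cancel, act_one, Equiv.Perm.one_apply]
  rw [h]

/-- The complex conjugation as an automorphism. -/
theorem act_conj (x : Pts K) : act K (starRingAut : ℂ ≃+* ℂ) x = bar x := rfl

/-- **Splitting.** A multiple of the part of a relation in a set of fields which are unlinked from the
others is a relation. -/
theorem split_rel (hq : (q : ℂ) ≠ 0) (hne : ∀ x : Pts K, x.2 (π x.1) ≠ 0) (s : Set I)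
    (hU : ∀ i ∈ s, ∀ j, j ∉ s → Unlinked (K i) (K j)) {n : Pts K → ℤ} (hn : IsRel q π n) :
    ∃ (N : ℕ) (m : Pts K → ℤ), 0 < N ∧ IsRel q π m ∧ (∀ x : Pts K, x.1 ∉ s → m x = 0) ∧
      ∀ x : Pts K, x.1 ∈ s → dd m x = N * dd n x := by
  classical
  set R₁ := RQ1 hq hne s with hR₁
  have hact : ∀ σ, ∀ c ∈ R₁, (fun x => c (act K σ x)) ∈ R₁ := by
    rintro σ c ⟨h1, h2⟩
    exact ⟨RQ_act hq hne σ h1, fun x hx => h2 _ hx⟩
  have hrefl : (dotB K).IsRefl := fun c d h => by rw [dotB_symm]; exact h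
  have hdis : Disjoint R₁ ((dotB K).orthogonal R₁) := by
    rw [Submodule.disjoint_def]
    intro c hc hc'
    exact dotB_self (hc' c hc)
  have hcompl := (LinearMap.BilinForm.isCompl_orthogonal_iff_disjoint hrefl).2 hdis
  obtain ⟨c₁, hc₁, c₂, hc₂, hc⟩ : ∃ c₁ ∈ R₁, ∃ c₂ ∈ (dotB K).orthogonal R₁,
      c₁ + c₂ = fun x => (n x : ℚ) := by
    have h : (fun x => (n x : ℚ)) ∈ R₁ ⊔ (dotB K).orthogonal R₁ := by
      rw [hcompl.sup_eq_top]
      trivial
    exact Submodule.mem_sup.1 h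
  have hnQ : (fun x => (n x : ℚ)) ∈ RQ hq hne := ⟨1, one_pos, n, hn, fun x => by simp⟩
  have hc₂Q : c₂ ∈ RQ hq hne := by
    have h : c₂ = (fun x => (n x : ℚ)) - c₁ := by rw [← hc]; abel
    rw [h]
    exact sub_mem hnQ hc₁.1
  have horth : ∀ σ, ∀ c ∈ (dotB K).orthogonal R₁, (fun x => c (act K σ x)) ∈
      (dotB K).orthogonal R₁ := by
    intro σ c h r hr
    change dotB K r _ = 0
    rw [dotB_symm, dotB_act, dotB_symm]
    exact h _ (hact _ r hr)
  -- the odd part of `c₂` is zero on the embeddings of `K i`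
  have hzero : ∀ x : Pts K, x.1 ∈ s → c₂ x = c₂ (bar x) := by
    rintro ⟨i, φ⟩ hi
    set x₀ : Pts K := ⟨i, φ⟩ with hx₀
    let c₃ : Pts K → ℚ := ∑ h : grp x₀, fun x => c₂ ((h : Equiv.Perm _) x)
    have hc₃ : ∀ x, c₃ x = ∑ h : grp x₀, c₂ ((h : Equiv.Perm _) x) := fun x => by
      simp only [c₃, Finset.sum_apply]
    have h3Q : c₃ ∈ RQ hq hne := by
      refine sum_mem ?_
      rintro ⟨h, σ, hσ, rfl⟩ _
      exact RQ_act hq hne σ hc₂Q
    have h3O : c₃ ∈ (dotB K).orthogonal R₁ := by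
      refine sum_mem ?_
      rintro ⟨h, σ, hσ, rfl⟩ _
      exact horth σ c₂ hc₂
    have hinv : ∀ σ, act K σ x₀ = x₀ → ∀ x, c₃ (act K σ x) = c₃ x := by
      intro σ hσ x
      rw [hc₃, hc₃]
      let g : grp x₀ := ⟨act K σ, σ, hσ, rfl⟩
      exact Fintype.sum_equiv (Equiv.mulRight g) _ _ fun h => rfl
    let c₄ : Pts K → ℚ := c₃ - fun x => c₃ (bar x)
    have h4Q : c₄ ∈ RQ hq hne := sub_mem h3Q (RQ_act hq hne starRingAut h3Q)
    have h4O : c₄ ∈ (dotB K).orthogonal R₁ := sub_mem h3O (horth starRingAut c₃ h3O)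
    have h4 : ∀ x, c₄ x = c₃ x - c₃ (bar x) := fun x => rfl
    have h41 : c₄ ∈ R₁ := by
      refine ⟨h4Q, ?_⟩
      rintro ⟨j, ψ⟩ hj
      obtain ⟨σ, h1, h2⟩ := hU i hi j hj φ ψ
      have h5 := hinv σ (by rw [hx₀, act_mk, h1]) ⟨j, ψ⟩
      rw [act_mk, h2] at h5
      rw [h4, sub_eq_zero]
      exact h5.symm
    have h40 : c₄ = 0 := (Submodule.disjoint_def.1 hdis) c₄ h41 h4O
    have h5 : c₃ x₀ = c₃ (bar x₀) := by
      have h6 := congrFun h40 x₀
      rw [h4] at h6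
      exact sub_eq_zero.1 h6
    rw [hc₃, hc₃] at h5
    have h6 : ∀ h : grp x₀, (h : Equiv.Perm _) x₀ = x₀ ∧ (h : Equiv.Perm _) (bar x₀) = bar x₀ := by
      rintro ⟨h, σ, hσ, rfl⟩
      have hσ' : act K σ x₀ = x₀ := hσ
      refine ⟨hσ', ?_⟩
      change act K σ (bar x₀) = bar x₀
      rw [act_bar, hσ']
    have h8 : ∑ h : grp x₀, c₂ ((h : Equiv.Perm _) x₀) = Fintype.card (grp x₀) * c₂ x₀ := by
      rw [Finset.sum_congr rfl fun h _ => congrArg c₂ (h6 h).1, Finset.sum_const,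
        Finset.card_univ, nsmul_eq_mul]
    have h9 : ∑ h : grp x₀, c₂ ((h : Equiv.Perm _) (bar x₀)) =
        Fintype.card (grp x₀) * c₂ (bar x₀) := by
      rw [Finset.sum_congr rfl fun h _ => congrArg c₂ (h6 h).2, Finset.sum_const,
        Finset.card_univ, nsmul_eq_mul]
    rw [h8, h9] at h5
    have h7 : (Fintype.card (grp x₀) : ℚ) ≠ 0 := by
      exact_mod_cast Fintype.card_ne_zero
    exact mul_left_cancel₀ h7 h5
  obtain ⟨⟨N, hN, m, hm, hmc⟩, hsupp⟩ := hc₁
  refine ⟨N, m, hN, hm, fun x hx => ?_, fun x hx => ?_⟩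
  · have h := hmc x
    rw [hsupp x hx, mul_zero] at h
    exact_mod_cast h.symm
  · have h1 : ∀ x, c₁ x = n x - c₂ x := fun x => by
      have h := congrFun hc x
      simp only [Pi.add_apply] at h
      linarith
    have h2 : ((dd m x : ℤ) : ℚ) = ((N * dd n x : ℤ) : ℚ) := by
      unfold dd
      push_cast
      rw [← hmc, ← hmc, h1, h1, hzero x hx]
      ring
    exact_mod_cast h2

end

end Pool.Agent.H298.Exo
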