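import Mathlib
import Pool.Agent.H395.Exo.Bridge
import Pool.Agent.H298.Exo.Split
import Pool.Agent.H298.Exo.Iff
import Pool.Agent.H298.Exo.Good

/-!
# The relations between the Frobenius eigenvalues of abelian varieties whose Weil numbers belong to
blocks of unlinked fields
-/

set_option autoImplicit false
set_option linter.unusedSectionVars false
set_option linter.unusedVariables false

namespace Pool.Agent.H298.Exo

open NumberField Finset Module Pool.Agent.H204R3.CM Pool.Agent.H977R3.CM Pool.Agent.TH170.CM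
  Pool.Agent.TH170.MF Pool.Agent.W495.TA Pool.Agent.TH117 Pool.Agent.TH170.FW Pool.Agent.TH170
  Pool.Agent.Y156.P Pool.Agent.Y137.MV
open Pool.Agent.H395.Exo (relGroup mem_relGroup eig_ne_zero OfNumbersOn emb_quad conj_ne_self)

noncomputable section

section rel

variable {p : ℕ} [hp : Fact p.Prime] {ν : PadicAlgCl p ≃+* ℂ}

theorem q_ne (Y : RedAV p ν) : ((p : ℂ) ^ Y.a) ≠ 0 :=
  pow_ne_zero _ (Nat.cast_ne_zero.2 hp.out.ne_zero)

/-- Multiples of exponents. -/
theorem relGroup_saturated {Y : RedAV p ν} {c : ℕ} (hc : 0 < c) {d : BL.Emb Y → ℤ}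
    (h : (fun w => (c : ℤ) * d w) ∈ relGroup Y) : d ∈ relGroup Y := by
  obtain ⟨s, hs, h1⟩ := h
  refine ⟨s * c, Nat.mul_pos hs hc, ?_⟩
  have h2 : ∏ w, BL.eig Y w ^ ((c : ℤ) * d w) = (∏ w, BL.eig Y w ^ d w) ^ c := by
    rw [← Finset.prod_pow]
    refine Finset.prod_congr rfl fun w _ => ?_
    rw [mul_comm, zpow_mul, zpow_natCast]
  have h3 : ∑ w, (c : ℤ) * d w = c * ∑ w, d w := by rw [Finset.mul_sum]
  rw [h2, h3, ← pow_mul] at h1
  have h4 : 2 * (s * c) = c * (2 * s) := by ring
  rw [h4, h1]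
  congr 1
  push_cast
  ring

/-- Symmetric exponents. -/
theorem relGroup_symm {Y : RedAV p ν} {d : BL.Emb Y → ℤ} (h : ∀ w, d (GS.conjE w) = d w) :
    d ∈ relGroup Y := by
  refine ⟨1, one_pos, ?_⟩
  have hinv : ∀ w : BL.Emb Y, GS.conjE (GS.conjE w) = w := by
    rintro ⟨i, φ⟩
    change (⟨i, ComplexEmbedding.conjugate (ComplexEmbedding.conjugate φ)⟩ : BL.Emb Y) = _
    rw [ComplexEmbedding.involutive_conjugate _ φ]
  have h1 : ∏ w, BL.eig Y w ^ d w = ∏ w, BL.eig Y (GS.conjE w) ^ d w := by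
    refine Fintype.prod_bijective (fun w : BL.Emb Y => GS.conjE w)
      (Function.Involutive.bijective hinv) _ _ fun w => ?_
    rw [hinv, h]
  have h2 : ∀ w : BL.Emb Y, BL.eig Y w * BL.eig Y (GS.conjE w) = (p : ℂ) ^ Y.a := by
    rintro ⟨i, φ⟩
    have h3 : ‖φ (Y.π i)‖ ^ 2 = (p : ℝ) ^ Y.a := (Y.frob i).weil φ
    change φ (Y.π i) * (starRingEnd ℂ) (φ (Y.π i)) = _
    rw [Complex.mul_conj, Complex.normSq_eq_norm_sq, h3]
    push_cast
    rfl
  have h4 : (∏ w, BL.eig Y w ^ d w) ^ (2 * 1) = (∏ w, BL.eig Y w ^ d w) *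
      ∏ w, BL.eig Y (GS.conjE w) ^ d w := by
    rw [← h1, mul_one, sq]
  rw [h4, ← Finset.prod_mul_distrib]
  have h5 : ∀ w, BL.eig Y w ^ d w * BL.eig Y (GS.conjE w) ^ d w = ((p : ℂ) ^ Y.a) ^ d w :=
    fun w => by rw [← mul_zpow, h2]
  rw [Finset.prod_congr rfl fun w _ => h5 w]
  have h7 : ∀ s : Finset (BL.Emb Y), ∏ w ∈ s, ((p : ℂ) ^ Y.a) ^ d w =
      ((p : ℂ) ^ Y.a) ^ (∑ w ∈ s, d w) := by
    classical
    intro s
    induction s using Finset.induction_on with
    | empty => simp
    | insert t s ht ih =>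
      rw [Finset.prod_insert ht, Finset.sum_insert ht, zpow_add₀ (q_ne Y), ih]
  rw [h7]
  norm_num

/-- Relations between the numbers `val z` give relations between the Frobenius eigenvalues. -/
theorem lift_mem {Y : RedAV p ν} {X : Type} [Fintype X] [DecidableEq X]
    (F : BL.Emb Y → Option X) (val : X → ℂ) {P a : ℕ} (hP : 0 < P) (ha : 0 < a)
    (hA1 : ∀ w z, F w = some z → BL.eig Y w ^ (P * a) = val z ^ (Y.a * P))
    (hval : ∀ z, ‖val z‖ ^ 2 = (p : ℝ) ^ a) (g : X → ℤ) (r : ℤ)
    (hg : ∏ z, val z ^ g z = ((p ^ a : ℕ) : ℂ) ^ r) (L : BL.Emb Y → ℤ)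
    (hL0 : ∀ w, F w = none → L w = 0)
    (hLs : ∀ z, ∑ w, (if F w = some z then L w else 0) = g z) : L ∈ relGroup Y := by
  classical
  have hp1 : (1 : ℝ) < (p : ℝ) ^ a :=
    one_lt_pow₀ (by exact_mod_cast hp.out.one_lt) ha.ne'
  have hv0 : ∀ z, val z ≠ 0 := by
    intro z h
    have h1 := hval z
    rw [h, norm_zero] at h1
    have h2 : (0 : ℝ) < (p : ℝ) ^ a := lt_trans one_pos hp1
    rw [← h1] at h2
    norm_num at h2
  have hsum : ∑ z, g z = 2 * r := by
    have h1 : ‖∏ z, val z ^ g z‖ ^ 2 = ((p : ℝ) ^ a) ^ (∑ z, g z) := by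
      rw [norm_prod, ← Finset.prod_pow]
      have h2 : ∀ z, ‖val z ^ g z‖ ^ 2 = ((p : ℝ) ^ a) ^ g z := by
        intro z
        rw [norm_zpow, ← hval z, ← zpow_natCast, ← zpow_mul, ← zpow_natCast, ← zpow_mul]
        congr 1
        ring
      rw [Finset.prod_congr rfl fun z _ => h2 z]
      have h7 : ∀ s : Finset X, ∏ w ∈ s, ((p : ℝ) ^ a) ^ g w =
          ((p : ℝ) ^ a) ^ (∑ w ∈ s, g w) := by
        intro s
        induction s using Finset.induction_on with
        | empty => simp
        | insert t s ht ih =>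
          rw [Finset.prod_insert ht, Finset.sum_insert ht,
            zpow_add₀ (lt_trans one_pos hp1).ne', ih]
      exact h7 _
    have h3 : ‖((p ^ a : ℕ) : ℂ) ^ r‖ ^ 2 = ((p : ℝ) ^ a) ^ (2 * r) := by
      rw [norm_zpow, Complex.norm_natCast, ← zpow_natCast, ← zpow_mul]
      push_cast
      congr 1
      ring
    rw [hg, h3] at h1
    exact (zpow_right_injective₀ (lt_trans one_pos hp1) hp1.ne' h1).symm
  have hLsum : ∑ w, L w = ∑ z, g z := by
    have h1 : ∀ w, L w = ∑ z, (if F w = some z then L w else 0) := by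
      intro w
      rcases hF : F w with _ | z
      · rw [hL0 w hF]
        simp
      · rw [Finset.sum_eq_single z]
        · rw [if_pos rfl]
        · intro z' _ hz'
          rw [if_neg fun h => hz' (Option.some.inj h).symm]
        · intro h
          exact absurd (mem_univ _) h
    rw [Finset.sum_congr rfl fun w _ => h1 w, Finset.sum_comm]
    exact Finset.sum_congr rfl fun z _ => hLs z
  refine ⟨P * a, Nat.mul_pos hP ha, ?_⟩
  have hw1 : ∀ w, (BL.eig Y w ^ L w) ^ (2 * (P * a)) =
      ∏ z, val z ^ (((2 * (Y.a * P) : ℕ) : ℤ) * (if F w = some z then L w else 0)) := by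
    intro w
    rcases hF : F w with _ | z
    · rw [hL0 w hF]
      simp
    · rw [Finset.prod_eq_single z]
      · rw [if_pos rfl]
        have h1 := hA1 w z hF
        have h2 : (BL.eig Y w ^ L w) ^ (2 * (P * a)) = ((BL.eig Y w ^ (P * a)) ^ 2) ^ L w := by
          rw [← pow_mul, ← zpow_natCast (BL.eig Y w), ← zpow_natCast (BL.eig Y w ^ L w),
            ← zpow_mul, ← zpow_mul]
          congr 1
          push_cast
          ring
        rw [h2, h1, ← pow_mul, ← zpow_natCast, ← zpow_mul]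
        congr 1
        push_cast
        ring
      · intro z' _ hz'
        rw [if_neg fun h => hz' (Option.some.inj h).symm, mul_zero, zpow_zero]
      · intro h
        exact absurd (mem_univ _) h
  rw [← Finset.prod_pow, Finset.prod_congr rfl fun w _ => hw1 w, Finset.prod_comm]
  have h8 : ∀ z, ∏ w, val z ^ (((2 * (Y.a * P) : ℕ) : ℤ) * (if F w = some z then L w else 0)) =
      (val z ^ g z) ^ (2 * (Y.a * P)) := by
    intro z
    have h7 : ∀ s : Finset (BL.Emb Y), ∏ w ∈ s,
        val z ^ (((2 * (Y.a * P) : ℕ) : ℤ) * (if F w = some z then L w else 0)) =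
        val z ^ (((2 * (Y.a * P) : ℕ) : ℤ) * ∑ w ∈ s, (if F w = some z then L w else 0)) := by
      intro s
      induction s using Finset.induction_on with
      | empty => simp
      | insert t s ht ih =>
        rw [Finset.prod_insert ht, Finset.sum_insert ht, mul_add, zpow_add₀ (hv0 z), ih]
    rw [h7, hLs, mul_comm, zpow_mul, zpow_natCast]
  rw [Finset.prod_congr rfl fun z _ => h8 z, Finset.prod_pow, hg, hLsum, hsum, ← zpow_natCast,
    ← zpow_mul]
  push_cast
  rw [← zpow_natCast, ← zpow_natCast, ← zpow_mul, ← zpow_mul]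
  congr 1
  push_cast
  ring

end rel

variable {p : ℕ} [hp : Fact p.Prime] {ν : PadicAlgCl p ≃+* ℂ} {a : ℕ} {I : Type} [Fintype I]
  {K : I → Type} [∀ i, Field (K i)] [∀ i, NumberField (K i)] [∀ i, IsCMField (K i)]
  {k : Type} [Field k] [NumberField k] [IsCMField k] {κ : k →+* ℂ} {J : Set I}
  {ϑ : ∀ i, i ∈ J → (k →+* K i)}

/-- The relations between the Weil numbers split into trivial ones, relations which are constant over
`k`, and relations in blocks. -/
structure Parts (q : ℕ) (π : ∀ i, K i) (κ : k →+* ℂ) (J : Set I) (ϑ : ∀ i, i ∈ J → (k →+* K i))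
    {B : Type} (β : I → Option B) : Prop where
  quad : ∀ n : Pts K → ℤ, IsRel q π n → ∀ i (hi : i ∈ J) (φ ψ : K i →+* ℂ),
    φ.comp (ϑ i hi) = κ → ψ.comp (ϑ i hi) = κ → dd n ⟨i, φ⟩ = dd n ⟨i, ψ⟩
  free : ∀ n : Pts K → ℤ, IsRel q π n → ∀ i, i ∉ J → β i = none →
    ∀ φ : K i →+* ℂ, dd n ⟨i, φ⟩ = 0
  block : ∀ n : Pts K → ℤ, IsRel q π n → ∀ b, ∃ (N : ℕ) (m : Pts K → ℤ), 0 < N ∧
    IsRel q π m ∧ (∀ x : Pts K, β x.1 ≠ some b → m x = 0) ∧
    ∀ x : Pts K, β x.1 = some b → dd m x = N * dd n x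

/-- **The relations between the Frobenius eigenvalues**, if the relations between the Weil numbers
split into blocks: elementary relations and relations which are invariant over `k`. -/
theorem rel_decomp (ha : 0 < a) (hk : finrank ℚ k = 2) {π : ∀ i, K i}
    (hw : ∀ i, π i * IsCMField.complexConj (K i) (π i) = (p : K i) ^ a)
    {B : Type} [Fintype B] {β : I → Option B} (hβJ : ∀ i ∈ J, β i = none)
    (hP : Parts (p ^ a) π κ J ϑ β) (hgood : ∀ b, GoodFields K {i | β i = some b})
    {Y : RedAV p ν} (hY : OfNumbersOn {i | i ∈ J ∨ β i ≠ none} π Y) (e : BL.Emb Y → ℕ)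
    (he : BL.IsRel Y e) :
    ∃ nJ : BL.Emb Y → ℕ, BL.IsRel Y nJ ∧ N202.QR.IsInvariant κ Y nJ ∧
      (J = ∅ → ∀ w, nJ w = 0) ∧ (fun w => (e w : ℤ) - nJ w) ∈ AddSubgroup.closure
        {d : BL.Emb Y → ℤ | ∃ n : BL.Emb Y → ℕ, BL.IsRel Y n ∧ BL.IsElementary Y n ∧
          ∀ w, d w = n w} := by
  obtain ⟨hJ, hF0, hB⟩ := hP
  classical
  let S : Y.X.I → Prop := fun k => GS.IsSupersingular p Y.a (Y.π k)
  have hY' : ∀ k, ¬ S k → ∃ (i : I) (θ : K i →+* (Y.X.factor k).E) (m s : ℕ),
      (i ∈ {i | i ∈ J ∨ β i ≠ none} → Function.Surjective θ) ∧ 0 < m ∧ 0 < s ∧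
      θ (π i ^ m) = Y.π k ^ s := fun k hk => (hY k).resolve_left hk
  choose t θ m s hsur hm hs hθ using hY'
  choose s' hs' hss' using fun k (h : S k) => h
  have hp0 : (p : ℂ) ≠ 0 := Nat.cast_ne_zero.2 hp.out.ne_zero
  have hexp : ∀ k (h : ¬ S k), a * m k h = Y.a * s k h := by
    intro k h
    obtain ⟨χ⟩ : Nonempty ((Y.X.factor k).E →+* ℂ) := inferInstance
    have h1 : ‖χ (Y.π k)‖ ^ 2 = (p : ℝ) ^ Y.a := (Y.frob k).weil χ
    have hQ : π (t k h) * IsCMField.complexConj (K (t k h)) (π (t k h)) =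
        ((p ^ a : ℕ) : K (t k h)) := by
      rw [hw]
      push_cast
      rfl
    have h2 := norm_sq_weil hQ (χ.comp (θ k h))
    have h3 : χ (Y.π k) ^ s k h = (χ.comp (θ k h)) (π (t k h)) ^ m k h := by
      rw [← map_pow, ← hθ, ← map_pow (χ.comp (θ k h))]
      rfl
    have h4 : (‖χ (Y.π k)‖ ^ 2) ^ s k h = (‖(χ.comp (θ k h)) (π (t k h))‖ ^ 2) ^ m k h := by
      rw [← pow_mul, ← pow_mul, mul_comm 2 (s k h), mul_comm 2 (m k h), pow_mul, pow_mul,
        ← norm_pow (χ (Y.π k)), ← norm_pow ((χ.comp (θ k h)) (π (t k h))), h3]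
    rw [h1, h2] at h4
    push_cast at h4
    rw [← pow_mul, ← pow_mul] at h4
    exact (Nat.pow_right_injective hp.out.two_le (by exact_mod_cast h4)).symm
  let X : Type := Σ i, (K i →+* ℂ)
  let inv : X → X := fun z => ⟨z.1, ComplexEmbedding.conjugate z.2⟩
  have hinv : ∀ z, inv (inv z) = z := by
    rintro ⟨i, φ⟩
    simp only [inv, conj_conj]
  let val : X → ℂ := fun z => z.2 (π z.1)
  have hval : ∀ z, val z * val (inv z) = (p : ℂ) ^ a := by
    rintro ⟨i, φ⟩
    have h1 := congrArg φ (hw i)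
    rw [map_mul, IsCMField.complexEmbedding_complexConj, map_pow, map_natCast] at h1
    exact h1
  let F : BL.Emb Y → Option X := fun w =>
    if h : S w.1 then none else some ⟨t w.1 h, w.2.comp (θ w.1 h)⟩
  have hF1 : ∀ w, S w.1 → F w = none := fun w h => dif_pos h
  have hF2 : ∀ w (h : ¬ S w.1), F w = some ⟨t w.1 h, w.2.comp (θ w.1 h)⟩ := fun w h => dif_neg h
  have hFc : ∀ w z, F w = some z → F (GS.conjE w) = some (inv z) := by
    intro w z hz
    by_cases h : S w.1
    · rw [hF1 w h] at hz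
      exact absurd hz (by simp)
    · rw [hF2 w h] at hz
      rw [← Option.some.inj hz, hF2 (GS.conjE w) h]
      rfl
  -- common exponents
  let r : Y.X.I → ℕ := fun k => if h : S k then s' k h else s k h
  have hrpos : ∀ k, 0 < r k := by
    intro k
    by_cases h : S k
    · simp only [r, dif_pos h]
      exact hs' k h
    · simp only [r, dif_neg h]
      exact hs k h
  let P : ℕ := ∏ k, r k
  have hPpos : 0 < P := Finset.prod_pos fun k _ => hrpos k
  have hPdvd : ∀ k, ∃ c, P = r k * c := fun k => Finset.dvd_prod_of_mem r (mem_univ k)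
  have hA1 : ∀ w z, F w = some z → BL.eig Y w ^ (P * a) = val z ^ (Y.a * P) := by
    intro w z hz
    have h : ¬ S w.1 := fun h => by
      rw [hF1 w h] at hz
      exact absurd hz (by simp)
    rw [hF2 w h] at hz
    rw [← Option.some.inj hz]
    obtain ⟨c, hc⟩ := hPdvd w.1
    have hr : r w.1 = s w.1 h := dif_neg h
    have h1 : BL.eig Y w ^ s w.1 h = val ⟨t w.1 h, w.2.comp (θ w.1 h)⟩ ^ m w.1 h := by
      change (w.2 (Y.π w.1)) ^ s w.1 h = (w.2 (θ w.1 h (π (t w.1 h)))) ^ m w.1 h
      rw [← map_pow, ← hθ, ← map_pow, ← map_pow]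
    have h2 : P * a = s w.1 h * (c * a) := by rw [hc, hr]; ring
    have h3 : Y.a * P = m w.1 h * (c * a) := by
      have h4 := hexp w.1 h
      calc Y.a * P = (Y.a * s w.1 h) * c := by rw [hc, hr]; ring
        _ = (a * m w.1 h) * c := by rw [h4]
        _ = m w.1 h * (c * a) := by ring
    rw [h2, pow_mul, h1, ← pow_mul, h3]
  have hA2 : ∀ w, F w = none → BL.eig Y w ^ (2 * P) = ((p : ℂ) ^ Y.a) ^ P := by
    intro w hz
    have h : S w.1 := by
      by_contra h
      rw [hF2 w h] at hz
      exact absurd hz (by simp)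
    obtain ⟨c, hc⟩ := hPdvd w.1
    have hr : r w.1 = s' w.1 h := dif_pos h
    have h1 : BL.eig Y w ^ (2 * s' w.1 h) = ((p : ℂ) ^ Y.a) ^ s' w.1 h := by
      change (w.2 (Y.π w.1)) ^ (2 * s' w.1 h) = _
      rw [← map_pow, hss' w.1 h, map_pow, map_pow, map_natCast]
    have h2 : 2 * P = (2 * s' w.1 h) * c := by rw [hc, hr]; ring
    rw [h2, pow_mul, h1, ← pow_mul, hc, hr]
  -- the exponents
  let E : X → ℕ := fun z => ∑ w, (if F w = some z then e w else 0)
  let D : X → ℤ := fun z => (E z : ℤ) - E (inv z)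
  have hDdef : ∀ z, D z = (E z : ℤ) - E (inv z) := fun z => rfl
  obtain ⟨c₀, hc₀, hrel0⟩ : ∃ c₀ : ℕ, 0 < c₀ ∧
      IsRel (p ^ a) π (fun z : Pts K => (c₀ : ℤ) * E z) := by
    obtain ⟨s₀, hs₀, hrel⟩ := he
    have hw1 : ∀ w : BL.Emb Y, (BL.eig Y w ^ e w) ^ (2 * s₀ * (P * a)) =
        ((p : ℂ) ^ a) ^ (Y.a * P * s₀ * (if F w = none then e w else 0)) *
          ∏ z, val z ^ (2 * (Y.a * P) * s₀ * (if F w = some z then e w else 0)) := by
      intro w
      rcases hFw : F w with _ | z
      · have h1 : ∀ z : X, val z ^ (2 * (Y.a * P) * s₀ *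
            (if (none : Option X) = some z then e w else 0)) = 1 := by
          intro z
          rw [if_neg (by simp), mul_zero, pow_zero]
        rw [Finset.prod_congr rfl fun z _ => h1 z, Finset.prod_const_one, mul_one, if_pos rfl]
        have h2 : e w * (2 * s₀ * (P * a)) = (2 * P) * (a * s₀ * e w) := by ring
        rw [← pow_mul, h2, pow_mul, hA2 w hFw, ← pow_mul, ← pow_mul, ← pow_mul]
        congr 1
        ring
      · rw [if_neg (by simp), mul_zero, pow_zero, one_mul]
        rw [Finset.prod_eq_single z]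
        · rw [if_pos rfl, ← pow_mul]
          have h2 : e w * (2 * s₀ * (P * a)) = (P * a) * (2 * s₀ * e w) := by ring
          rw [h2, pow_mul, hA1 w z hFw, ← pow_mul]
          congr 1
          ring
        · intro z' _ hz'
          rw [if_neg (fun h => hz' (Option.some.inj h).symm), mul_zero, pow_zero]
        · intro h
          exact absurd (mem_univ _) h
    have h1 : ((p : ℂ) ^ a) ^ (Y.a * P * s₀ * (∑ w, if F w = none then e w else 0)) *
        ∏ z, val z ^ (2 * (Y.a * P) * s₀ * E z) = ((p : ℂ) ^ a) ^ (Y.a * P * s₀ * ∑ w, e w) := by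
      have h2 : (∏ w, BL.eig Y w ^ e w) ^ (2 * s₀ * (P * a)) =
          ((p : ℂ) ^ a) ^ (Y.a * P * s₀ * ∑ w, e w) := by
        rw [pow_mul, hrel, ← pow_mul, ← pow_mul, ← pow_mul]
        congr 1
        ring
      rw [← h2, ← Finset.prod_pow, Finset.prod_congr rfl fun w _ => hw1 w,
        Finset.prod_mul_distrib]
      congr 1
      · rw [Finset.prod_pow_eq_pow_sum, Finset.mul_sum]
      · rw [Finset.prod_comm]
        refine Finset.prod_congr rfl fun z _ => ?_
        rw [Finset.prod_pow_eq_pow_sum, ← Finset.mul_sum]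
    have hq0 : ((p : ℂ) ^ a) ≠ 0 := pow_ne_zero _ hp0
    have h3 : ∏ z : X, (z.2 (π z.1)) ^ (((2 * (Y.a * P) * s₀ * E z : ℕ)) : ℤ) =
        ((p ^ a : ℕ) : ℂ) ^ (((Y.a * P * s₀ * ∑ w, e w : ℕ) : ℤ) -
          ((Y.a * P * s₀ * (∑ w, if F w = none then e w else 0) : ℕ) : ℤ)) := by
      have h4 : ((p ^ a : ℕ) : ℂ) = (p : ℂ) ^ a := by push_cast; rfl
      rw [h4, zpow_sub₀ hq0, zpow_natCast, zpow_natCast, ← h1, mul_div_cancel_left₀ _
        (pow_ne_zero _ hq0)]
      exact Finset.prod_congr rfl fun z _ => by rw [zpow_natCast]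
    refine ⟨2 * (Y.a * P) * s₀, Nat.mul_pos (Nat.mul_pos two_pos (Nat.mul_pos Y.pos hPpos)) hs₀,
      ((Y.a * P * s₀ * ∑ w, e w : ℕ) : ℤ) -
          ((Y.a * P * s₀ * (∑ w, if F w = none then e w else 0) : ℕ) : ℤ), ?_⟩
    rw [← h3]
    refine Finset.prod_congr rfl fun z _ => ?_
    push_cast
    rfl
  have hdd0 : ∀ z : Pts K, dd (fun z : Pts K => (c₀ : ℤ) * E z) z = c₀ * D z := by
    intro z
    have h1 : bar z = inv z := rfl
    simp only [dd, h1, hDdef]
    ring
  have hc₀' : (c₀ : ℤ) ≠ 0 := by exact_mod_cast hc₀.ne'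
  have hE1 : ∀ z : Pts K, z.1 ∉ J → β z.1 = none → D z = 0 := by
    rintro ⟨i, φ⟩ hi hβ
    have h1 := hF0 _ hrel0 i hi hβ φ
    rw [hdd0] at h1
    exact (mul_eq_zero.1 h1).resolve_left hc₀'
  have hE2 : ∀ i (hi : i ∈ J) (φ ψ : K i →+* ℂ), φ.comp (ϑ i hi) = κ → ψ.comp (ϑ i hi) = κ →
      D ⟨i, φ⟩ = D ⟨i, ψ⟩ := by
    intro i hi φ ψ hφ hψ
    have h1 := hJ _ hrel0 i hi φ ψ hφ hψ
    rw [hdd0, hdd0] at h1
    exact mul_left_cancel₀ hc₀' h1
  have hqC : ((p ^ a : ℕ) : ℂ) ≠ 0 := by exact_mod_cast pow_ne_zero a hp.out.ne_zero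
  have hneC : ∀ x : Pts K, x.2 (π x.1) ≠ 0 := nonzero_of hqC fun i φ => by
    have h1 := hval ⟨i, φ⟩
    change φ (π i) * ComplexEmbedding.conjugate φ (π i) = (p : ℂ) ^ a at h1
    rw [h1]
    push_cast
    rfl
  have hE3 : ∀ b, ∃ N : ℕ, 0 < N ∧
      IsRel (p ^ a) π (fun z : Pts K => if β z.1 = some b then (N : ℤ) * D z else 0) := by
    intro b
    obtain ⟨N, m, hN, hm, hm0, hmd⟩ := hB _ hrel0 b
    refine ⟨N * c₀, Nat.mul_pos hN hc₀, ?_⟩
    have h1 : IsRel (p ^ a) π (fun z : Pts K => m z - m (act K starRingAut z)) :=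
      hm.sub hqC hneC (hm.act _)
    have h2 : (fun z : Pts K => m z - m (act K starRingAut z)) =
        fun z : Pts K => if β z.1 = some b then ((N * c₀ : ℕ) : ℤ) * D z else 0 := by
      funext z
      have h3 : m z - m (act K starRingAut z) = dd m z := rfl
      rw [h3]
      by_cases hz : β z.1 = some b
      · rw [if_pos hz, hmd z hz, hdd0]
        push_cast
        ring
      · rw [if_neg hz]
        unfold dd
        rw [hm0 z hz, hm0 (bar z) hz, sub_self]
    rw [← h2]
    exact h1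
  have hDinv : ∀ z, D (inv z) = - D z := by
    intro z
    simp only [D, hinv]
    ring
  have hDval : ∀ z, D z = (∑ w, (if F w = some z then (e w : ℤ) else 0)) -
      ∑ w, (if F w = some (inv z) then (e w : ℤ) else 0) := by
    intro z
    simp only [D, E]
    push_cast
    rfl
  have hDfix : ∀ (σ : ℂ ≃+* ℂ), (∀ x, σ (κ x) = κ x) → ∀ i, i ∈ J → ∀ (φ : K i →+* ℂ),
      D ⟨i, (σ : ℂ →+* ℂ).comp φ⟩ = D ⟨i, φ⟩ := by
    intro σ hσ i hi0 φ
    by_cases hi : i ∈ J
    · have hkeep : ∀ χ : K i →+* ℂ, χ.comp (ϑ i hi) = κ →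
          ((σ : ℂ →+* ℂ).comp χ).comp (ϑ i hi) = κ := by
        intro χ hχ
        ext x
        have h2 : χ (ϑ i hi x) = κ x := RingHom.congr_fun hχ x
        change σ (χ (ϑ i hi x)) = κ x
        rw [h2, hσ]
      rcases emb_quad hk κ (φ.comp (ϑ i hi)) with h1 | h1
      · exact hE2 i hi _ _ (hkeep φ h1) h1
      · have h2 : (ComplexEmbedding.conjugate φ).comp (ϑ i hi) = κ := by
          have h3 : (ComplexEmbedding.conjugate φ).comp (ϑ i hi) =
              ComplexEmbedding.conjugate (φ.comp (ϑ i hi)) := rfl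
          rw [h3, h1, ComplexEmbedding.involutive_conjugate k κ]
        have h4 := hE2 i hi _ _ (hkeep _ h2) h2
        have h5 : (⟨i, (σ : ℂ →+* ℂ).comp (ComplexEmbedding.conjugate φ)⟩ : X) =
            inv ⟨i, (σ : ℂ →+* ℂ).comp φ⟩ := by
          change (⟨i, (σ : ℂ →+* ℂ).comp (ComplexEmbedding.conjugate φ)⟩ : X) =
            ⟨i, ComplexEmbedding.conjugate ((σ : ℂ →+* ℂ).comp φ)⟩
          rw [comp_conj]
        have h6 : (⟨i, ComplexEmbedding.conjugate φ⟩ : X) = inv ⟨i, φ⟩ := rfl
        rw [h5, h6, hDinv, hDinv] at h4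
        exact neg_injective h4
    · exact absurd hi0 hi
  -- one factor for each field
  obtain ⟨k₀, hk₀⟩ : ∃ k₀ : I → Option Y.X.I, ∀ i, (∃ l, ∃ h : ¬ S l, t l h = i) →
      ∃ l, k₀ i = some l ∧ ∃ h : ¬ S l, t l h = i := by
    refine ⟨fun i => if hex : ∃ l, ∃ h : ¬ S l, t l h = i then some hex.choose else none,
      fun i hex => ⟨hex.choose, dif_pos hex, hex.choose_spec⟩⟩
  let T : Set I := {i | i ∈ J ∨ β i ≠ none}
  let chosen : Y.X.I → Prop := fun l => ∃ h : ¬ S l, t l h ∈ T ∧ k₀ (t l h) = some l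
  let lft : (X → ℤ) → BL.Emb Y → ℤ := fun g w => if chosen w.1 then (F w).elim 0 g else 0
  have hlft : ∀ g w, lft g w = if chosen w.1 then (F w).elim 0 g else 0 := fun g w => rfl
  have hNg : ∀ g : X → ℤ, (∀ z, g z ≠ 0 → z.1 ∈ T ∧ ∃ w, F w = some z) →
      ∀ z, ∑ w, (if F w = some z then lft g w else 0) = g z := by
    intro g hg
    rintro ⟨i, φ⟩
    by_cases hgz : g ⟨i, φ⟩ = 0
    · rw [hgz]
      refine Finset.sum_eq_zero fun w _ => ?_
      by_cases hF' : F w = some ⟨i, φ⟩
      · rw [if_pos hF', hlft, hF']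
        simp only [Option.elim_some, hgz, ite_self]
      · rw [if_neg hF']
    · obtain ⟨hi, hex⟩ := hg _ hgz
      have hex' : ∃ l, ∃ h : ¬ S l, t l h = i := by
        obtain ⟨w, hw⟩ := hex
        by_cases h : S w.1
        · rw [hF1 w h] at hw
          exact absurd hw (by simp)
        · rw [hF2 w h] at hw
          exact ⟨w.1, h, congrArg Sigma.fst (Option.some.inj hw)⟩
      obtain ⟨l, hl, hSl, htl⟩ := hk₀ i hex'
      subst htl
      have hbij : Function.Bijective (θ l hSl) := ⟨(θ l hSl).injective, hsur l hSl hi⟩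
      let e₁ : K (t l hSl) ≃+* (Y.X.factor l).E := RingEquiv.ofBijective (θ l hSl) hbij
      let χ : (Y.X.factor l).E →+* ℂ := φ.comp (e₁.symm : (Y.X.factor l).E →+* K (t l hSl))
      have hχ : χ.comp (θ l hSl) = φ := by
        ext x
        change φ (e₁.symm (e₁ x)) = φ x
        rw [e₁.symm_apply_apply]
      have hFχ : F ⟨l, χ⟩ = some ⟨t l hSl, φ⟩ := by
        have h1 := hF2 ⟨l, χ⟩ hSl
        rw [h1]
        change some (⟨t l hSl, χ.comp (θ l hSl)⟩ : X) = _
        rw [hχ]
      have hch : chosen l := ⟨hSl, hi, hl⟩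
      rw [Finset.sum_eq_single (⟨l, χ⟩ : BL.Emb Y)]
      · rw [if_pos hFχ, hlft, if_pos hch, hFχ]
        rfl
      · rintro ⟨l', χ'⟩ _ hne
        by_cases hF' : F ⟨l', χ'⟩ = some ⟨t l hSl, φ⟩
        · rw [if_pos hF']
          by_cases hch' : chosen l'
          · exfalso
            obtain ⟨hSl', hJ', hl'⟩ := hch'
            have h1 := hF2 ⟨l', χ'⟩ hSl'
            have h2 : (⟨t l' hSl', χ'.comp (θ l' hSl')⟩ : X) = ⟨t l hSl, φ⟩ :=
              Option.some.inj (h1.symm.trans hF')
            have h3 : t l' hSl' = t l hSl := congrArg Sigma.fst h2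
            rw [h3, hl] at hl'
            have h4 : l = l' := Option.some.inj hl'
            subst h4
            apply hne
            have h5 : χ'.comp (θ l hSl) = φ := eq_of_heq (Sigma.mk.inj h2).2
            have h6 : χ' = χ := by
              ext x
              obtain ⟨y, rfl⟩ := hbij.2 x
              have h7 := RingHom.congr_fun (h5.trans hχ.symm) y
              exact h7
            rw [h6]
          · rw [hlft, if_neg hch']
        · rw [if_neg hF']
      · intro h1
        exact absurd (mem_univ _) h1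
  have hDsupp : ∀ z, D z ≠ 0 → z.1 ∈ T ∧ ∃ w, F w = some z := by
    intro z hz
    refine ⟨?_, ?_⟩
    · by_contra h
      have h1 : z.1 ∉ J := fun h2 => h (Or.inl h2)
      have h2 : β z.1 = none := by
        by_contra h3
        exact h (Or.inr h3)
      exact hz (hE1 z h1 h2)
    · by_contra hex
      apply hz
      have h1 : ∀ w, ¬ F w = some z := fun w hw => hex ⟨w, hw⟩
      have h2 : ∀ w, ¬ F w = some (inv z) := by
        intro w hw
        have h3 := hFc w _ hw
        rw [hinv] at h3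
        exact h1 _ h3
      rw [hDval, Finset.sum_eq_zero fun w _ => if_neg (h1 w),
        Finset.sum_eq_zero fun w _ => if_neg (h2 w)]
      simp
  -- the parts
  let blkJ : Y.X.I → Prop := fun l => ∃ h : ¬ S l, t l h ∈ J
  let blk : B → Y.X.I → Prop := fun b l => ∃ h : ¬ S l, β (t l h) = some b
  let n : BL.Emb Y → ℕ := fun w =>
    if chosen w.1 then (F w).elim 0 (fun z => (D z).toNat) else 0
  let nJ : BL.Emb Y → ℕ := fun w => if blkJ w.1 then n w else 0
  let nB : B → BL.Emb Y → ℕ := fun b w => if blk b w.1 then n w else 0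
  have hn0 : ∀ w, ¬ chosen w.1 → n w = 0 := fun w h => if_neg h
  have hn1 : ∀ w z, chosen w.1 → F w = some z → n w = (D z).toNat := by
    intro w z h hz
    have h2 : n w = if chosen w.1 then (F w).elim 0 (fun z => (D z).toNat) else 0 := rfl
    rw [h2, if_pos h, hz]
    rfl
  have hnsplit : ∀ w, (n w : ℤ) = nJ w + ∑ b, (nB b w : ℤ) := by
    intro w
    by_cases hc : chosen w.1
    · obtain ⟨hSl, hT, hl⟩ := hc
      rcases hT with hT | hT
      · have h1 : nJ w = n w := if_pos ⟨hSl, hT⟩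
        have h2 : ∀ b, nB b w = 0 := by
          intro b
          refine if_neg ?_
          rintro ⟨h, h3⟩
          rw [hβJ _ hT] at h3
          exact absurd h3 (by simp)
        rw [h1, Finset.sum_eq_zero fun b _ => by rw [h2, Nat.cast_zero], add_zero]
      · obtain ⟨b, hb⟩ := Option.ne_none_iff_exists'.1 hT
        have h1 : nJ w = 0 := by
          refine if_neg ?_
          rintro ⟨h, h3⟩
          rw [hβJ _ h3] at hb
          exact absurd hb (by simp)
        have h2 : nB b w = n w := if_pos ⟨hSl, hb⟩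
        rw [h1, Finset.sum_eq_single b, h2]
        · simp
        · intro b' _ hb'
          have h3 : nB b' w = 0 := by
            refine if_neg ?_
            rintro ⟨h, h3⟩
            rw [hb] at h3
            exact hb' (Option.some.inj h3).symm
          rw [h3, Nat.cast_zero]
        · intro h
          exact absurd (mem_univ _) h
    · have h1 := hn0 w hc
      have h2 : nJ w = 0 := by
        simp only [nJ, h1, ite_self]
      have h3 : ∀ b, nB b w = 0 := by
        intro b
        simp only [nB, h1, ite_self]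
      rw [h1, h2, Finset.sum_eq_zero fun b _ => by rw [h3, Nat.cast_zero]]
      simp
  have hninv : N202.QR.IsInvariant κ Y nJ := by
    intro σ hσ w
    by_cases hb : blkJ w.1
    · have h0 : nJ w = n w := if_pos hb
      have h0' : nJ ⟨w.1, (σ : ℂ →+* ℂ).comp w.2⟩ = n ⟨w.1, (σ : ℂ →+* ℂ).comp w.2⟩ := if_pos hb
      obtain ⟨h, hJ'⟩ := hb
      rw [h0, h0']
      have h1 := hDfix σ hσ (t w.1 h) hJ' (w.2.comp (θ w.1 h))
      have h2 : (σ : ℂ →+* ℂ).comp (w.2.comp (θ w.1 h)) =
          ((σ : ℂ →+* ℂ).comp w.2).comp (θ w.1 h) := rfl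
      rw [h2] at h1
      by_cases hc : chosen w.1
      · rw [hn1 w _ hc (hF2 w h),
          hn1 ⟨w.1, (σ : ℂ →+* ℂ).comp w.2⟩ _ hc (hF2 ⟨w.1, (σ : ℂ →+* ℂ).comp w.2⟩ h)]
        exact congrArg Int.toNat h1
      · rw [hn0 w hc, hn0 ⟨w.1, (σ : ℂ →+* ℂ).comp w.2⟩ hc]
    · have h0 : nJ w = 0 := if_neg hb
      have h0' : nJ ⟨w.1, (σ : ℂ →+* ℂ).comp w.2⟩ = 0 := if_neg hb
      rw [h0, h0']
  have hN : ∀ z, ∑ w, (if F w = some z then (n w : ℤ) else 0) = ((D z).toNat : ℤ) := by
    intro z
    have h1 : ∀ w, (n w : ℤ) = lft (fun z => ((D z).toNat : ℤ)) w := by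
      intro w
      by_cases hc : chosen w.1
      · rw [hlft, if_pos hc]
        rcases hF : F w with _ | z'
        · have h2 : n w = 0 := by
            have h3 : n w = if chosen w.1 then (F w).elim 0 (fun z => (D z).toNat) else 0 := rfl
            rw [h3, hF]
            simp
          rw [h2]
          rfl
        · rw [hn1 w z' hc hF]
          rfl
      · rw [hlft, if_neg hc, hn0 w hc, Nat.cast_zero]
    rw [Finset.sum_congr rfl fun w _ => by rw [h1 w]]
    refine hNg _ (fun z hz => hDsupp z fun h => hz ?_) z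
    simp only [h, Int.toNat_zero, Nat.cast_zero]
  have hmem : (fun w => (e w : ℤ) - n w) ∈ AddSubgroup.closure
      {d : BL.Emb Y → ℤ | ∃ n : BL.Emb Y → ℕ, BL.IsRel Y n ∧ BL.IsElementary Y n ∧
        ∀ w, d w = n w} := by
    refine GS.mem_of_symm _ F inv hinv ?_ ?_ ?_ ?_ (fun w => (e w : ℤ) - n w) ?_
    · rintro ⟨i, φ⟩ h
      exact conj_ne φ (eq_of_heq (Sigma.mk.inj h).2)
    · intro w hw
      apply GS.single_mem
      by_contra h
      have h1 := hF2 w h
      rw [hw] at h1
      exact absurd h1 (by simp)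
    · intro w w' z hz hz'
      have hsum : ∑ v, (Pi.single w 1 + Pi.single w' 1 : BL.Emb Y → ℕ) v = 2 := by
        simp only [Pi.add_apply, sum_add_distrib, Finset.sum_pi_single', mem_univ, if_true]
      refine AddSubgroup.subset_closure ⟨Pi.single w 1 + Pi.single w' 1, ?_, Or.inl hsum.le,
        fun v => ?_⟩
      · refine ⟨P * a, Nat.mul_pos hPpos ha, ?_⟩
        have h1 : ∏ v, BL.eig Y v ^ (Pi.single w 1 + Pi.single w' 1 : BL.Emb Y → ℕ) v =
            BL.eig Y w * BL.eig Y w' := by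
          simp only [Pi.add_apply, pow_add, Finset.prod_mul_distrib]
          congr 1
          · rw [Finset.prod_eq_single w]
            · rw [Pi.single_eq_same, pow_one]
            · intro v _ hv
              rw [Pi.single_eq_of_ne hv, pow_zero]
            · intro h
              exact absurd (mem_univ _) h
          · rw [Finset.prod_eq_single w']
            · rw [Pi.single_eq_same, pow_one]
            · intro v _ hv
              rw [Pi.single_eq_of_ne hv, pow_zero]
            · intro h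
              exact absurd (mem_univ _) h
        rw [h1, hsum, mul_comm 2 (P * a), pow_mul, mul_pow, hA1 w z hz, hA1 w' (inv z) hz',
          ← mul_pow, hval, ← pow_mul, ← pow_mul, ← pow_mul]
        congr 1
        ring
      · simp only [Pi.add_apply, Nat.cast_add]
        congr 1
        · by_cases hv : v = w
          · subst hv
            simp
          · rw [Pi.single_eq_of_ne hv, Pi.single_eq_of_ne hv]
            simp
        · by_cases hv : v = w'
          · subst hv
            simp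
          · rw [Pi.single_eq_of_ne hv, Pi.single_eq_of_ne hv]
            simp
    · intro w z hz
      exact ⟨GS.conjE w, hFc w z hz⟩
    · intro z
      have h1 : ∀ z, ∑ w, (if F w = some z then ((e w : ℤ) - n w) else 0) =
          (∑ w, (if F w = some z then (e w : ℤ) else 0)) -
            ∑ w, (if F w = some z then (n w : ℤ) else 0) := by
        intro z
        rw [← Finset.sum_sub_distrib]
        refine Finset.sum_congr rfl fun w _ => ?_
        split_ifs <;> ring
      rw [h1, h1, hN, hN, hDinv]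
      have h2 := hDval z
      have h3 := Int.toNat_sub_toNat_neg (D z)
      omega
  have hle : AddSubgroup.closure {d : BL.Emb Y → ℤ | ∃ n : BL.Emb Y → ℕ, BL.IsRel Y n ∧
      BL.IsElementary Y n ∧ ∀ w, d w = n w} ≤ relGroup Y := by
    rw [AddSubgroup.closure_le]
    rintro d ⟨n', h1, -, h2⟩
    have h3 : d = fun w => (n' w : ℤ) := funext h2
    rw [h3]
    exact (mem_relGroup n').2 h1
  -- the blocks
  have hnB : ∀ b, (fun w => (nB b w : ℤ)) ∈ relGroup Y := by
    intro b
    obtain ⟨N, hN0, r, hr⟩ := hE3 b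
    let g : X → ℤ := fun z => if β z.1 = some b then (N : ℤ) * D z else 0
    have hgd : ∀ z, g z = if β z.1 = some b then (N : ℤ) * D z else 0 := fun z => rfl
    have hL : lft g ∈ relGroup Y := by
      refine lift_mem F val hPpos ha hA1 ?_ g r hr (lft g) ?_ (hNg g ?_)
      · rintro ⟨i, φ⟩
        have hQ : π i * IsCMField.complexConj (K i) (π i) = ((p ^ a : ℕ) : K i) := by
          rw [hw]
          push_cast
          rfl
        have h2 := norm_sq_weil hQ φ
        change ‖φ (π i)‖ ^ 2 = _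
        rw [h2]
        push_cast
        rfl
      · intro w hw0
        rw [hlft, hw0]
        simp
      · intro z hz
        refine hDsupp z fun h => hz ?_
        rw [hgd, h]
        simp
    have hsym : (fun w => (nB b w : ℤ) + nB b (GS.conjE w)) ∈ relGroup Y := by
      refine relGroup_symm fun w => ?_
      have hcc : GS.conjE (GS.conjE w) = w := by
        obtain ⟨i, φ⟩ := w
        change (⟨i, ComplexEmbedding.conjugate (ComplexEmbedding.conjugate φ)⟩ : BL.Emb Y) = _
        rw [ComplexEmbedding.involutive_conjugate _ φ]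
      simp only [hcc]
      ring
    have hkey : ∀ w, ((2 * N : ℕ) : ℤ) * nB b w =
        lft g w + N * ((nB b w : ℤ) + nB b (GS.conjE w)) := by
      intro w
      have hcj : (GS.conjE w).1 = w.1 := rfl
      by_cases hc : chosen w.1
      · by_cases hb : blk b w.1
        · obtain ⟨hS', hβ'⟩ := hb
          have h1 : nB b w = n w := if_pos ⟨hS', hβ'⟩
          have h2 : nB b (GS.conjE w) = n (GS.conjE w) := if_pos ⟨hS', hβ'⟩
          have hz := hF2 w hS'
          have hz' := hFc w _ hz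
          rw [h1, h2, hn1 w _ hc hz, hn1 (GS.conjE w) _ hc hz', hDinv, hlft, if_pos hc, hz]
          simp only [Option.elim_some]
          rw [hgd, if_pos hβ']
          have h3 := Int.toNat_sub_toNat_neg (D ⟨t w.1 hS', w.2.comp (θ w.1 hS')⟩)
          push_cast
          linear_combination ((N : ℤ)) * h3
        · have h1 : nB b w = 0 := if_neg hb
          have h2 : nB b (GS.conjE w) = 0 := if_neg hb
          have h3 : lft g w = 0 := by
            rw [hlft, if_pos hc]
            by_cases hS' : S w.1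
            · rw [hF1 w hS']
              rfl
            · rw [hF2 w hS']
              simp only [Option.elim_some]
              rw [hgd, if_neg fun h => hb ⟨hS', h⟩]
          rw [h1, h2, h3]
          simp
      · have h0 := hn0 w hc
        have h0' := hn0 (GS.conjE w) hc
        have h1 : nB b w = 0 := by simp only [nB, h0, ite_self]
        have h2 : nB b (GS.conjE w) = 0 := by simp only [nB, h0', ite_self]
        rw [h1, h2, hlft, if_neg hc]
        simp
    have h2N : 0 < 2 * N := by omega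
    refine relGroup_saturated h2N ?_
    have h1 : (fun w => ((2 * N : ℕ) : ℤ) * (nB b w : ℤ)) =
        lft g + (N : ℤ) • fun w => ((nB b w : ℤ) + nB b (GS.conjE w)) := by
      funext w
      rw [hkey w]
      simp only [Pi.add_apply, Pi.smul_apply, smul_eq_mul]
    rw [h1]
    exact (relGroup Y).add_mem hL ((relGroup Y).zsmul_mem hsym _)
  have hgoodY : ∀ b, BL.IsElementary Y (nB b) := by
    intro b
    refine Or.inr (Or.inl ⟨{l | chosen l ∧ blk b l}, ?_, ?_⟩)
    · refine goodSet_of (hgood b) (S := {l | chosen l ∧ blk b l})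
        (fun l hl => t l hl.1.choose) ?_ ?_ ?_
      · intro l hl
        obtain ⟨h1, h2⟩ := hl.2
        exact h2
      · intro l l' hl hl' hll
        have h1 := hl.1.choose_spec.2
        have h2 := hl'.1.choose_spec.2
        have h3 : t l hl.1.choose = t l' hl'.1.choose := hll
        rw [h3, h2] at h1
        exact (Option.some.inj h1).symm
      · intro l hl
        have hbij : Function.Bijective (θ l hl.1.choose) :=
          ⟨(θ l hl.1.choose).injective, hsur l hl.1.choose hl.1.choose_spec.1⟩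
        exact ⟨AlgEquiv.ofRingEquiv (f := RingEquiv.ofBijective (θ l hl.1.choose) hbij)
          fun x => (map_ratCast (θ l hl.1.choose) x)⟩
    · intro w hw0
      by_contra hcon
      apply hw0
      by_cases hc : chosen w.1
      · exact if_neg fun hb => hcon ⟨hc, hb⟩
      · have h0 := hn0 w hc
        simp only [nB, h0, ite_self]
  have hrn : (fun w => (nJ w : ℤ)) ∈ relGroup Y := by
    have h1 := (relGroup Y).sub_mem ((mem_relGroup e).2 he) (hle hmem)
    have h2 : ((fun w => (e w : ℤ)) - fun w => (e w : ℤ) - n w) = fun w => (n w : ℤ) := by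
      funext w
      simp only [Pi.sub_apply]
      ring
    rw [h2] at h1
    have h3 := (relGroup Y).sub_mem h1 (sum_mem (t := univ) fun b _ => hnB b)
    have h4 : ((fun w => (n w : ℤ)) - ∑ b, fun w => (nB b w : ℤ)) = fun w => (nJ w : ℤ) := by
      funext w
      simp only [Pi.sub_apply, Finset.sum_apply]
      rw [hnsplit]
      ring
    rwa [h4] at h3
  refine ⟨nJ, (mem_relGroup nJ).1 hrn, hninv, fun hJ0 w => ?_, ?_⟩
  · refine if_neg ?_
    rintro ⟨h, h1⟩
    rw [hJ0] at h1
    exact h1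
  have h1 : (fun w => (e w : ℤ) - nJ w) = (fun w => (e w : ℤ) - n w) +
      ∑ b, fun w => (nB b w : ℤ) := by
    funext w
    simp only [Pi.add_apply, Finset.sum_apply]
    have h2 := hnsplit w
    linarith
  rw [h1]
  exact AddSubgroup.add_mem _ hmem (sum_mem fun b _ =>
    AddSubgroup.subset_closure ⟨nB b, (mem_relGroup (nB b)).1 (hnB b), hgoodY b, fun w => rfl⟩)

/-- The relations between the Frobenius eigenvalues are products of elementary relations and of
relations which are invariant over `k`. -/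
theorem quadRel_of_parts (ha : 0 < a) (hk : finrank ℚ k = 2) {π : ∀ i, K i}
    (hw : ∀ i, π i * IsCMField.complexConj (K i) (π i) = (p : K i) ^ a)
    {B : Type} [Fintype B] {β : I → Option B} (hβJ : ∀ i ∈ J, β i = none)
    (hP : Parts (p ^ a) π κ J ϑ β) (hgood : ∀ b, GoodFields K {i | β i = some b})
    {Y : RedAV p ν} (hY : OfNumbersOn {i | i ∈ J ∨ β i ≠ none} π Y) :
    N202.QR.HasQuadRelE κ Y := by
  intro e he
  obtain ⟨nJ, h1, h2, -, h3⟩ := rel_decomp ha hk hw hβJ hP hgood hY e he
  have h4 : (fun w => (e w : ℤ)) = (fun w => (e w : ℤ) - nJ w) + fun w => (nJ w : ℤ) := by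
    funext w
    simp only [Pi.add_apply]
    ring
  rw [h4]
  refine AddSubgroup.add_mem _ (AddSubgroup.closure_mono ?_ h3)
    (AddSubgroup.subset_closure ⟨nJ, h1, Or.inr h2, fun w => rfl⟩)
  rintro d ⟨n', h2, h3, h4⟩
  exact ⟨n', h2, Or.inl h3, h4⟩

/-- The relations between the Frobenius eigenvalues are elementary if there is no exotic part. -/
theorem elementary_of_parts (ha : 0 < a) (hk : finrank ℚ k = 2) {π : ∀ i, K i}
    (hw : ∀ i, π i * IsCMField.complexConj (K i) (π i) = (p : K i) ^ a)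
    {B : Type} [Fintype B] {β : I → Option B} (hβJ : ∀ i ∈ J, β i = none)
    (hP : Parts (p ^ a) π κ J ϑ β) (hgood : ∀ b, GoodFields K {i | β i = some b})
    {Y : RedAV p ν} (hY : OfNumbersOn {i | i ∈ J ∨ β i ≠ none} π Y) (hJ0 : J = ∅) :
    BL.HasElementaryRelations Y := by
  intro e he
  obtain ⟨nJ, -, -, h2, h3⟩ := rel_decomp ha hk hw hβJ hP hgood hY e he
  have h4 : (fun w => (e w : ℤ)) = (fun w => (e w : ℤ) - nJ w) := by
    funext w
    rw [h2 hJ0 w]
    simp
  rw [h4]
  exact h3

end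

end Pool.Agent.H298.Exo
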