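import Mathlib
import Pool.Agent.H298.Exo.Stm
import Pool.Agent.H298.Exo.Iff
import Pool.Agent.H298.Exo.Disj
import Pool.Agent.H298.Exo.Parts
import Pool.Agent.H395.Exo.Main
import Pool.Agent.H298.Core.WeilRel
import Pool.Agent.H395.Cyc.Main

/-!
# Families of Weil numbers in fields which are pairwise unlinked, or disjoint over an imaginary
quadratic field: theorems
-/

set_option autoImplicit false
set_option linter.unusedSectionVars false
set_option linter.unusedVariables false

namespace Pool.Agent.H298.Exo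

open NumberField Module Pool.Agent.H395.Cyc Pool.Agent.H298.Core Pool.Agent.Y156.P
open Pool.Agent.Y137.MV (MaximalAngleRank)

noncomputable section

variable {p a : ℕ} [hp : Fact p.Prime]

theorem isFree_iff (w : WeilNum p a) :
    IsFree w ↔ MaximalAngleRank (p ^ a) (fun _ : Unit => w.num) := by
  constructor
  · intro h r n hn _ φ
    rw [Fintype.prod_sigma, Fintype.prod_unique] at hn
    exact h (fun φ => n ⟨(), φ⟩) ⟨r, hn⟩ φ
  · rintro h n ⟨r, hn⟩ φ
    exact h r (fun x => n x.2) (by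
      rw [Fintype.prod_sigma, Fintype.prod_unique]
      exact hn) () φ

theorem comesFrom_iff (Q : ImagQuad) (w : WeilNum p a) (θ : FHom Q.k w.E) :
    ComesFrom Q w θ ↔ Pool.Agent.H395.Exo.QuadShape (p ^ a) (fun _ : Unit => w.num) Q.κ
      Set.univ (fun _ _ => θ) := by
  constructor
  · intro h r n hn
    rw [Fintype.prod_sigma, Fintype.prod_unique] at hn
    exact ⟨fun _ h => absurd (Set.mem_univ _) h, fun _ _ φ ψ hφ hψ =>
      h (fun φ => n ⟨(), φ⟩) ⟨r, hn⟩ φ ψ hφ hψ⟩
  · rintro h n ⟨r, hn⟩ φ ψ hφ hψ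
    exact (h r (fun x => n x.2) (by
      rw [Fintype.prod_sigma, Fintype.prod_unique]
      exact hn)).2 () (Set.mem_univ _) φ ψ hφ hψ

theorem weil_ev (w : WeilNum p a) (φ : w.E →+* ℂ) :
    φ w.num * ComplexEmbedding.conjugate φ w.num = ((p ^ a : ℕ) : ℂ) := by
  have h1 := congrArg φ w.weil
  rw [map_mul, IsCMField.complexEmbedding_complexConj, map_pow, map_natCast] at h1
  rw [Nat.cast_pow]
  exact h1

section split

variable {Q : ImagQuad} {I B : Type} [Fintype I] {J : Set I} {β : I → Option B}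
  {W : I → WeilNum p a} {θ : Embedded Q J W}

theorem parts_iff : RelationsSplit Q J β W θ ↔
    Parts (p ^ a) (fun i => (W i).num) Q.κ J θ β := by
  constructor
  · intro h
    refine ⟨fun n hn i hi φ ψ hφ hψ => (h n hn).1 i hi φ ψ hφ hψ,
      fun n hn i hi hβ φ => (h n hn).2.1 i hi hβ φ, fun n hn b => ?_⟩
    obtain ⟨N, m, hN, hm, hm0, hmd⟩ := (h n hn).2.2 b
    exact ⟨N, m, hN, hm, hm0, fun x hx => hmd x.1 hx x.2⟩
  · rintro ⟨h1, h2, h3⟩ n hn
    refine ⟨fun i hi φ ψ hφ hψ => h1 n hn i hi φ ψ hφ hψ, fun i hi hβ φ => h2 n hn i hi hβ φ,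
      fun b => ?_⟩
    obtain ⟨N, m, hN, hm, hm0, hmd⟩ := h3 n hn b
    exact ⟨N, m, hN, hm, hm0, fun i hi φ => hmd ⟨i, φ⟩ hi⟩

/-- **The relations in separated families.** -/
theorem split_iff (hβJ : ∀ i ∈ J, β i = none) (hS : Separated Q J β W θ) :
    RelationsSplit Q J β W θ ↔ (∀ i, i ∉ J → β i = none → IsFree (W i)) ∧
      ∀ i (hi : i ∈ J), ComesFrom Q (W i) (θ i hi) := by
  have hq : ((p ^ a : ℕ) : ℂ) ≠ 0 := by
    exact_mod_cast pow_ne_zero a (Fact.out : p.Prime).ne_zero
  have hw : ∀ i, ∀ φ : (W i).E →+* ℂ,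
      φ (W i).num * ComplexEmbedding.conjugate φ (W i).num = ((p ^ a : ℕ) : ℂ) :=
    fun i φ => weil_ev (W i) φ
  have hne := nonzero_of (K := fun i => (W i).E) (π := fun i => (W i).num) hq hw
  rw [parts_iff]
  constructor
  · rintro ⟨h1, h2, -⟩
    refine ⟨fun i hi hβ => ?_, fun i hi => ?_⟩
    · rintro n ⟨r, hn⟩ φ
      have h := h2 (ext0 (K := fun i => (W i).E) i n) ⟨r, ext0_rel (π := fun i => (W i).num) i n r
        hn⟩ i hi hβ φ
      have h3 : dd (K := fun i => (W i).E) (ext0 (K := fun i => (W i).E) i n) ⟨i, φ⟩ =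
          n φ - n φ.cj := by
        have h4 := ext0_same (K := fun i => (W i).E) i n φ
        have h5 := ext0_same (K := fun i => (W i).E) i n (ComplexEmbedding.conjugate φ)
        exact congrArg₂ (· - ·) h4 h5
      rw [h3] at h
      omega
    · rintro n ⟨r, hn⟩ φ ψ hφ hψ
      have h := h1 (ext0 (K := fun i => (W i).E) i n) ⟨r, ext0_rel (π := fun i => (W i).num) i n r
        hn⟩ i hi φ ψ hφ hψ
      have h3 : ∀ φ : Emb (W i).E, dd (K := fun i => (W i).E)
          (ext0 (K := fun i => (W i).E) i n) ⟨i, φ⟩ = n φ - n φ.cj := by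
        intro φ
        have h4 := ext0_same (K := fun i => (W i).E) i n φ
        have h5 := ext0_same (K := fun i => (W i).E) i n (ComplexEmbedding.conjugate φ)
        exact congrArg₂ (· - ·) h4 h5
      rwa [h3, h3] at h
  · rintro ⟨h1, h2⟩
    refine ⟨fun n hn i hi φ ψ hφ hψ => ?_, fun n hn i hi hβ φ => ?_, fun n hn b => ?_⟩
    · exact quad_case (K := fun i => (W i).E) (π := fun i => (W i).num) Q.deg hq hne hw i hi
        (fun j hj => hS.unlinked i j (fun h => hj (h ▸ hi)) (Or.inr hj) (Or.inl (hβJ i hi)))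
        (fun j hj hji => hS.disjoint i j hi hj hji.symm) ((comesFrom_iff Q (W i) (θ i hi)).1
          (h2 i hi)) hn φ ψ hφ hψ
    · exact free_case (K := fun i => (W i).E) (π := fun i => (W i).num) hq hne hw i
        (fun j hj => hS.unlinked i j hj.symm (Or.inl hi) (Or.inl hβ)) ((isFree_iff (W i)).1
          (h1 i hi hβ)) hn φ
    · refine split_rel (K := fun i => (W i).E) (π := fun i => (W i).num) hq hne
        {i | β i = some b} ?_ hn
      intro i hi j hj
      have hi' : β i = some b := hi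
      have hj' : β j ≠ some b := hj
      refine hS.unlinked i j (fun h => hj' (h ▸ hi')) (Or.inl fun h => ?_)
        (Or.inr fun h => hj' (by rw [← h, hi']))
      rw [hβJ i h] at hi'
      exact absurd hi' (by simp)

theorem small_iff {s : Set I} (h : IsSmall W s) : GoodFields (fun i => (W i).E) s := h

variable {ν : PadicAlgCl p ≃+* ℂ}

/-- **The numerical statement.** -/
theorem num_of_split [Fintype B] (ha : 0 < a) (hβJ : ∀ i ∈ J, β i = none)
    (hs : ∀ b, IsSmall W {i | β i = some b}) (h : RelationsSplit Q J β W θ) :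
    NumPositive ν {i | i ∈ J ∨ β i ≠ none} W := by
  refine numPositive_iff ?_
  intro Ω _ _ _ _ C hC l hR hT Y hY α hα
  have hrel := quadRel_of_parts (ν := ν) ha Q.deg (fun i => (W i).weil) hβJ (parts_iff.1 h)
    (fun b => hs b) hY
  have hpos : Pool.Agent.N202.QR.HodgeType (Ω l) (Pool.Agent.N202.QR.atPrime C l) Y :=
    Pool.Agent.N202.QR.hodge_quadE hC l hR hT Q.deg Q.κ hrel
      (Pool.Agent.H395.powers_self Y)
  exact ⟨fun r m hrm z hz hnt hprim => hpos α hα r m hrm z hz hnt hprim,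
    fun A _ _ n gr deg D sp hS hR => Pool.Agent.H395.Exo.hodgeNumPositive_of hS hR
      fun r m hrm z hz hnt hprim => hpos α hα r m hrm z hz hnt hprim⟩

/-- **The homological statement.** -/
theorem hom_of_split [Fintype B] (ha : 0 < a) (hβJ : ∀ i ∈ J, β i = none)
    (hs : ∀ b, IsSmall W {i | β i = some b}) (h : RelationsSplit Q J β W θ) :
    HomPositive ν {l | J = ∅ ∨ l ∈ Q.nonsplit} {i | i ∈ J ∨ β i ≠ none} W := by
  refine homPositive_iff ?_
  refine Pool.Agent.H395.Exo.homPositive_of fun Ω _ _ _ _ C hC l hl hR hT Y hY α hα r m hrm z hz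
    hz0 hprim => ?_
  rcases hl with hJ | hns
  · exact Pool.Agent.TH117.PO.positive_full (hC.cycle l) hR hT
      (Or.inr ⟨Y, elementary_of_parts ha Q.deg (fun i => (W i).weil) hβJ (parts_iff.1 h)
        (fun b => hs b) hY hJ, Pool.Agent.H395.powers_self Y⟩) hα hrm hz hz0 hprim
  · exact Pool.Agent.H395.Exo.positive_nonsplit hC l hR hT Q.deg Q.κ
      (quadRel_of_parts (ν := ν) ha Q.deg (fun i => (W i).weil) hβJ (parts_iff.1 h)
        (fun b => hs b) hY) (Pool.Agent.H395.powers_self Y) hα hrm hz hns hz0 hprim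

end split

theorem unlinked_of_separates {E E' : Type} [Field E] [NumberField E] [IsCMField E] [Field E']
    [NumberField E'] [IsCMField E'] {q : ℕ} (h : Separates q E E' ∨ Separates q E' E) :
    Unlinked E E' := by
  intro φ ψ
  rcases h with h | h
  · obtain ⟨τ, h1, h2⟩ := exists_of_separates h φ
    refine ⟨τ.trans (starRingAut : ℂ ≃+* ℂ), ?_, ?_⟩
    · ext x
      have h3 := RingHom.congr_fun h1 x
      change τ (φ x) = (starRingEnd ℂ) (φ x) at h3
      change (starRingEnd ℂ) (τ (φ x)) = φ x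
      rw [h3]
      exact Complex.conj_conj _
    · ext y
      have h3 := RingHom.congr_fun (h2 ψ) y
      change τ (ψ y) = ψ y at h3
      change (starRingEnd ℂ) (τ (ψ y)) = (starRingEnd ℂ) (ψ y)
      rw [h3]
  · obtain ⟨τ, h1, h2⟩ := exists_of_separates h ψ
    exact ⟨τ, h2 φ, h1⟩

theorem separationCriteria : SeparationCriteria := by
  intro E E' _ _ _ _ _ _
  refine ⟨?_, ?_, ?_⟩
  · rintro ⟨φ, ψ, h⟩
    exact unlinked_of_degree φ ψ h
  · exact fun ⟨q, h⟩ => unlinked_of_separates h
  · rintro Q θ θ' ⟨φ, ψ, d, hφ, hψ, h, hd⟩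
    refine disjoint_of_degree Q.deg φ ψ hφ hψ ?_
    rw [← hd]
    exact congrArg (fun x => 2 * x) h

theorem isSimple_of (w : WeilNum p a) (h : Generates w.num) : IsSimpleWeil p a w.num :=
  ⟨w.integral, w.weil, h⟩

theorem single_types (w : WeilNum p a) (hw : Generates w.num) (Q : ImagQuad)
    (θ : FHom Q.k w.E) (h : Pool.Agent.H395.Exo.SumZeroIrreducible Q.κ θ ∨
      Pool.Agent.H395.Exo.DominatedOver p Q.κ w.num θ) :
    Pool.Agent.H395.Exo.QuadShape (p ^ a) (fun _ : Unit => w.num) Q.κ Set.univ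
      (fun _ _ => θ) := by
  refine Pool.Agent.H395.Exo.shape_of_types Q.deg (fun _ => w.integral) (fun _ => w.weil)
    ⟨fun _ => hw, fun i hi => absurd (Set.mem_univ i) hi, fun _ _ => h, fun i hi φ ψ hφ hψ => ?_⟩
  obtain ⟨σ, h1, h2⟩ := Pool.Agent.H395.Exo.exists_aut_over Q.κ θ φ ψ hφ hψ
  exact ⟨σ, h1, h2, fun j _ hj => absurd (Subsingleton.elim j i) hj⟩

theorem singleCriteria (ha : 0 < a) : SingleCriteria p a := by
  intro w hw
  refine ⟨fun h => ?_, fun r hr hE => ?_, fun Q θ h => ?_⟩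
  · rw [isFree_iff]
    exact angle_core (I := Unit) (K := fun _ => w.E) ha (fun i k hik => absurd rfl hik)
      (π := fun _ => w.num) fun _ => h
  · rw [isFree_iff]
    have hc : PrimitiveCore w.E r := ⟨hasCore_top hE, Or.inl hr⟩
    rw [(normCriteria_hold ha (isSimple_of w hw)).1 r hc]
    have hF : ∀ F : IntermediateField ℚ w.E, finrank F w.E = r ↔ finrank ℚ F = 2 := by
      intro F
      have h1 := finrank_mul_finrank ℚ F w.E
      rw [hE] at h1
      have h2 : 0 < finrank ℚ F := finrank_pos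
      have h3 := hr.pos
      constructor
      · intro h4
        rw [h4] at h1
        exact Nat.eq_of_mul_eq_mul_right h3 h1
      · intro h4
        rw [h4] at h1
        exact Nat.eq_of_mul_eq_mul_left two_pos h1
    exact forall_congr' fun F => by rw [hF]
  · rw [comesFrom_iff]
    rcases h with h | h | ⟨h6, h3⟩
    · exact single_types w hw Q θ (Or.inl h)
    · exact single_types w hw Q θ (Or.inr h)
    · exact single_types w hw Q θ (Or.inl (Pool.Agent.H395.Exo.sumZero_of_triple Q.deg Q.κ _ h3 h6))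

end

end Pool.Agent.H298.Exo
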