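import Mathlib
import Pool.Agent.H298.Exo.CorStm
import Pool.Agent.H298.Exo.Main

/-!
# Two special cases
-/

set_option autoImplicit false
set_option linter.unusedSectionVars false
set_option linter.unusedVariables false

namespace Pool.Agent.H298.Exo

open NumberField Module Pool.Agent.H395.Cyc Pool.Agent.H298.Core

noncomputable section

variable {p a : ℕ} [hp : Fact p.Prime] {ν : PadicAlgCl p ≃+* ℂ} {I : Type} [Fintype I]
  {W : I → WeilNum p a}

theorem exists_imagQuad (p : ℕ) [Fact p.Prime] : Nonempty ImagQuad := by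
  obtain ⟨κ⟩ : Nonempty ((Pool.Agent.TH117.BL.kp p).E →+* ℂ) := inferInstance
  exact ⟨⟨(Pool.Agent.TH117.BL.kp p).E, Pool.Agent.TH117.BL.finrank_kp p, κ⟩⟩

theorem isSmall_single (hdim : ∀ i, finrank ℚ (W i).E ≤ 10) (b : I) :
    IsSmall W {i | some i = some b} := by
  classical
  refine ⟨Or.inr ⟨?_, ?_⟩, ?_⟩
  · refine le_trans (le_of_eq (Finset.sum_congr (s₂ := {b}) ?_ fun _ _ => rfl))
      ((Finset.sum_singleton _ b).le.trans (hdim b))
    ext i
    simp
  · intro i hi j hj h1 h2
    have hi' : i = b := Option.some.inj hi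
    have hj' : j = b := Option.some.inj hj
    subst hi'
    subst hj'
    omega
  · intro i hi j hj hij
    exact absurd ((Option.some.inj hi).trans (Option.some.inj hj).symm) hij

theorem split_small (Q : ImagQuad) (hU : ∀ i j, i ≠ j → AreUnlinked (W i).E (W j).E) :
    RelationsSplit Q ∅ (fun i : I => some i) W (fun i hi => absurd hi (Set.notMem_empty i)) := by
  refine (split_iff (fun i hi => absurd hi (Set.notMem_empty i)) ⟨fun i j hij _ _ => hU i j hij,
    fun i j hi => absurd hi (Set.notMem_empty i)⟩).2 ⟨fun i _ h => absurd h (by simp),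
    fun i hi => absurd hi (Set.notMem_empty i)⟩

/-- Unlinked fields of degree at most ten. -/
theorem hom_small (ha : 0 < a) (hdim : ∀ i, finrank ℚ (W i).E ≤ 10)
    (hU : ∀ i j, i ≠ j → AreUnlinked (W i).E (W j).E) : HomPositive ν Set.univ Set.univ W := by
  obtain ⟨Q⟩ := exists_imagQuad p
  have h := hom_of_split (ν := ν) ha (fun i hi => absurd hi (Set.notMem_empty i))
    (isSmall_single hdim) (split_small Q hU)
  have h1 : {l : Nat.Primes | (∅ : Set I) = ∅ ∨ l ∈ Q.nonsplit} = Set.univ := by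
    ext l
    simp
  have h2 : {i : I | i ∈ (∅ : Set I) ∨ some i ≠ none} = Set.univ := by
    ext i
    simp
  rwa [h1, h2] at h

theorem num_small (ha : 0 < a) (hdim : ∀ i, finrank ℚ (W i).E ≤ 10)
    (hU : ∀ i j, i ≠ j → AreUnlinked (W i).E (W j).E) : NumPositive ν Set.univ W := by
  obtain ⟨Q⟩ := exists_imagQuad p
  have h := num_of_split (ν := ν) ha (fun i hi => absurd hi (Set.notMem_empty i))
    (isSmall_single hdim) (split_small Q hU)
  have h2 : {i : I | i ∈ (∅ : Set I) ∨ some i ≠ none} = Set.univ := by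
    ext i
    simp
  rwa [h2] at h

theorem split_over {Q : ImagQuad} {θ : ∀ i, FHom Q.k (W i).E} (ha : 0 < a)
    (hgen : ∀ i, Generates (W i).num) (hE : ∀ i, PrimeOrDouble Q (θ i))
    (hD : ∀ i j, i ≠ j → AreDisjoint Q (θ i) (θ j)) :
    RelationsSplit Q Set.univ (fun _ : I => (none : Option Empty)) W (fun i _ => θ i) := by
  refine (split_iff (fun _ _ => rfl) ⟨fun i j _ h => ?_, fun i j _ _ hij => hD i j hij⟩).2
    ⟨fun i hi => absurd (Set.mem_univ i) hi, fun i _ => ?_⟩
  · rcases h with h | h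
    · exact absurd (Set.mem_univ i) h
    · exact absurd (Set.mem_univ j) h
  · exact (singleCriteria ha (W i) (hgen i)).2.2 Q (θ i)
      (Or.inl (criteria Q (W i).E (θ i) (hE i)))

/-- Fields which are disjoint over an imaginary quadratic field. -/
theorem hom_over {Q : ImagQuad} {θ : ∀ i, FHom Q.k (W i).E} (ha : 0 < a)
    (hgen : ∀ i, Generates (W i).num) (hE : ∀ i, PrimeOrDouble Q (θ i))
    (hD : ∀ i j, i ≠ j → AreDisjoint Q (θ i) (θ j)) : HomPositive ν Q.nonsplit Set.univ W := by
  have h := hom_of_split (ν := ν) ha (fun _ _ => rfl) (fun b : Empty => b.elim)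
    (split_over ha hgen hE hD)
  intro F C hC l hl Y hY
  refine h F C hC l (Or.inr hl) Y fun k => ?_
  rcases hY k with h1 | ⟨i, E, m, s, hs, h2⟩
  · exact Or.inl h1
  · exact Or.inr ⟨i, E, m, s, fun _ => hs (Set.mem_univ i), h2⟩

theorem num_over {Q : ImagQuad} {θ : ∀ i, FHom Q.k (W i).E} (ha : 0 < a)
    (hgen : ∀ i, Generates (W i).num) (hE : ∀ i, PrimeOrDouble Q (θ i))
    (hD : ∀ i j, i ≠ j → AreDisjoint Q (θ i) (θ j)) : NumPositive ν Set.univ W := by
  have h := num_of_split (ν := ν) ha (fun _ _ => rfl) (fun b : Empty => b.elim)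
    (split_over ha hgen hE hD)
  intro F C hC l Y hY
  refine h F C hC l Y fun k => ?_
  rcases hY k with h1 | ⟨i, E, m, s, hs, h2⟩
  · exact Or.inl h1
  · exact Or.inr ⟨i, E, m, s, fun _ => hs (Set.mem_univ i), h2⟩

end

end Pool.Agent.H298.Exo
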