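import Mathlib
import Pool.Agent.H395.Cyc.Stm

/-!
# The numerical Hodge standard conjecture with numerically primitive classes: definitions
-/

set_option autoImplicit false

namespace Pool.Agent.H298.Exo

open NumberField Module Pool.Agent.H395.Cyc Pool.Agent.W495.TA Pool.Agent.Y137.HD

/-- **The numerical Hodge standard conjecture** for the ring of algebraic cycles `R` (modulo
homological equivalence): let `2 j + m = n`; if the class `x` of codimension `j` is primitive modulo
numerical equivalence, that is, the intersection numbers of `D ^ (m + 1) * x` with all cycles of
codimension `j - 1` are zero (no condition if `j = 0`), and `x` is not numerically equivalent to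
zero, then `(-1) ^ j * deg (x * x * D ^ m)` is positive. -/
def NumHodge (R : CycleRing) : Prop :=
  ∀ (j m : ℕ) (x), 2 * j + m = R.n → R.Cod j x →
    (∀ i, i + 1 = j → ∀ w, R.Cod i w → R.deg (R.mul (R.mul (R.D ^ (m + 1)) x) w) = 0) →
    (∃ y, R.Cod (R.n - j) y ∧ R.deg (R.mul x y) ≠ 0) →
      0 < (-1) ^ j * R.deg (R.mul x (R.mul x (R.D ^ m)))

/-- The numerical Hodge standard conjecture for all abelian varieties `Y` over an algebraic closure
of the field with `p` elements which are isogenous to products of powers of the abelian varieties
with the Weil numbers `π i` and of supersingular ones (`OfNumbersOn`), with all polarizations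
compatible with the complex multiplications of the lifting, and for all varieties over arbitrary
fields of characteristic `p` which specialize to them and satisfy the conjecture `A` of Lefschetz
type (`LefschetzA`, a theorem for abelian varieties); for those which do not, we have the same for
primitive classes modulo homological equivalence. -/
def NumHodgeFor {p a : ℕ} [Fact p.Prime] {I : Type} (ν : PadicAlgCl p ≃+* ℂ) (J : Set I)
    (W : I → WeilNum p a) : Prop :=
  ∀ (F : Coef) (C : Sys p ν F), IsTheory C → ∀ (l : Nat.Primes) (Y : RedAV p ν), OfNumbersOn J W Y →
    ∀ α : H1 Y, IsPolarization α → C.HodgeType l Y α (fun _ z => ¬ C.NumTrivial z) ∧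
      ∀ R sp, C.SpecializesTo l Y α R sp → R.HodgeNum ∧ (LefschetzA R.n R.gr R.D → NumHodge R)

end Pool.Agent.H298.Exo
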