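import Mathlib
import Pool.Agent.H298.Exo.NumStm
import Pool.Agent.H298.Exo.Main

/-!
# The numerical Hodge standard conjecture with numerically primitive classes
-/

set_option autoImplicit false
set_option linter.unusedSectionVars false
set_option linter.unusedVariables false

namespace Pool.Agent.H298.Exo

open NumberField Module Pool.Agent.H395.Cyc Pool.Agent.W495.TA Pool.Agent.Y137.HD

/-- Classes which are primitive modulo numerical equivalence are numerically equivalent to
primitive classes. -/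
theorem numHodge_of {R : CycleRing} (h : R.HodgeNum) (hA : LefschetzA R.n R.gr R.D) :
    NumHodge R := by
  intro j m x hjm hx hprim hy
  have hR := R.isRing
  have hmul : ∀ a b : R.A, R.mul a b = a * b := fun _ _ => rfl
  simp only [hmul] at hprim hy ⊢
  have hDpow : ∀ m : ℕ, R.D ^ m ∈ R.gr m := by
    intro m
    induction m with
    | zero => simpa using hR.one_mem
    | succ m ih =>
      rw [pow_succ]
      exact hR.mul_mem ih hR.divisor
  obtain ⟨x₀, t, hx₀, ht, hx0eq, hp0⟩ : ∃ x₀ t : R.A, R.Cod j x₀ ∧ (∀ w ∈ R.gr (R.n - j),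
      R.deg (t * w) = 0) ∧ x = x₀ + t ∧ R.D ^ (m + 1) * x₀ = 0 := by
    rcases Nat.eq_zero_or_pos j with h0 | h0
    · subst h0
      refine ⟨x, 0, hx, fun w _ => by rw [zero_mul, map_zero], by rw [add_zero], ?_⟩
      exact hR.bound (i := m + 1 + 0) (by omega) (hR.mul_mem (hDpow (m + 1)) hx)
    · obtain ⟨i, hi⟩ : ∃ i, i + 1 = j := ⟨j - 1, by omega⟩
      have h1 : R.D ^ (m + 1) * x ∈ R.gr (R.n - i) := by
        have h2 := hR.mul_mem (hDpow (m + 1)) hx
        have h3 : m + 1 + j = R.n - i := by omega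
        rwa [h3] at h2
      obtain ⟨z', hz', hz⟩ := hA i (by omega) _ h1
      have h4 : R.n - 2 * i = m + 2 := by omega
      rw [h4] at hz
      have hzt : ∀ w ∈ R.gr (R.n - i), R.deg (z' * w) = 0 := by
        intro w hw
        obtain ⟨w', hw', rfl⟩ := hA i (by omega) w hw
        rw [h4]
        have h5 := hprim i hi w' hw'
        rw [← hz] at h5
        rw [← h5]
        congr 1
        ring
      refine ⟨x - R.D * z', R.D * z', ?_, ?_, by ring, ?_⟩
      · have h2 := hR.mul_mem hR.divisor hz'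
        have h3 : 1 + i = j := by omega
        rw [h3] at h2
        exact (R.gr j).sub_mem hx h2
      · intro w hw
        have h2 := hR.mul_mem hR.divisor hw
        have h3 : 1 + (R.n - j) = R.n - i := by omega
        rw [h3] at h2
        rw [← hzt _ h2]
        congr 1
        ring
      · rw [mul_sub, ← hz]
        ring
  have hxmem : x ∈ R.gr j := hx
  have hx₀mem : x₀ ∈ R.gr j := hx₀
  have hnt : ∃ y, R.Cod (R.n - j) y ∧ R.deg (R.mul x₀ y) ≠ 0 := by
    obtain ⟨y, hy1, hy2⟩ := hy
    refine ⟨y, hy1, ?_⟩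
    rw [hmul]
    rw [hx0eq, add_mul, map_add, ht y hy1, add_zero] at hy2
    exact hy2
  have h1 := h j m x₀ hjm hx₀ hp0 hnt
  simp only [hmul] at h1
  have h2 : R.deg (x * (x * R.D ^ m)) = R.deg (x₀ * (x₀ * R.D ^ m)) := by
    have h3 : ∀ u ∈ R.gr j, R.deg (t * (u * R.D ^ m)) = 0 := by
      intro u hu
      refine ht _ ?_
      have h4 := hR.mul_mem hu (hDpow m)
      have h5 : j + m = R.n - j := by omega
      rwa [h5] at h4
    have h4 : x * (x * R.D ^ m) = x₀ * (x₀ * R.D ^ m) + (t * (x₀ * R.D ^ m) +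
        t * (x * R.D ^ m)) := by
      have h5 : t = x - x₀ := by rw [hx0eq]; ring
      rw [h5]
      ring
    rw [h4, map_add, map_add, h3 _ hx₀mem, h3 _ hxmem]
    ring
  rw [h2]
  exact h1

theorem numHodgeFor_of {p a : ℕ} [Fact p.Prime] {I : Type} {ν : PadicAlgCl p ≃+* ℂ} {J : Set I}
    {W : I → WeilNum p a} (h : NumPositive ν J W) : NumHodgeFor ν J W := by
  intro F C hC l Y hY α hα
  obtain ⟨h1, h2⟩ := h F C hC l Y hY α hα
  exact ⟨h1, fun R sp hS => ⟨h2 R sp hS, fun hA => numHodge_of (h2 R sp hS) hA⟩⟩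

end Pool.Agent.H298.Exo
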